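import Mathlib

/-!
Tools for `ℓ¹` spaces: `ℓ¹` is spanned by (weighted) unit vectors, and continuous linear maps out of
`ℓ¹` are given by bounded families of images of the unit vectors.
-/

set_option autoImplicit false

namespace Pool.Agent.H653R2.L1

open scoped BigOperators

/-- the space `ℓ¹(I)` -/
noncomputable abbrev L (I : Type) := lp (fun _ : I => ℂ) 1

lemma summable_norm {I : Type} (f : L I) : Summable fun i => ‖f i‖ := by
  have := (lp.memℓp f).summable (by simp)
  simpa using this

lemma norm_eq {I : Type} (f : L I) : ‖f‖ = ∑' i, ‖f i‖ := by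
  rw [lp.norm_eq_tsum_rpow (by simp)]
  simp

section
variable {I : Type} [DecidableEq I]

/-- the unit vector at `i`, multiplied by the weight `w` -/
noncomputable def bas (w : I → ℝ) (i : I) : L I := lp.single 1 i ((w i : ℝ) : ℂ)

lemma bas_apply (w : I → ℝ) (i j : I) : (bas w i : I → ℂ) j = if j = i then (w j : ℂ) else 0 := by
  unfold bas
  rw [lp.single_apply, Pi.single_apply]
  split_ifs with h
  · rw [h]
  · rfl

lemma norm_bas {w : I → ℝ} (hw : ∀ i, 0 < w i) (i : I) : ‖bas w i‖ = w i := by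
  unfold bas
  rw [lp.norm_single (by norm_num)]
  simp [abs_of_pos (hw i)]

lemma hasSum_bas {w : I → ℝ} (hw : ∀ i, 0 < w i) (f : L I) :
    HasSum (fun i => (f i / (w i : ℂ)) • bas w i) f := by
  have h := lp.hasSum_single (p := 1) (by simp) f
  convert h using 2 with i
  have hwi : ((w i : ℝ) : ℂ) ≠ 0 := by exact_mod_cast (hw i).ne'
  unfold bas
  rw [← lp.single_smul]
  congr 1
  simp only [smul_eq_mul]
  exact div_mul_cancel₀ _ hwi

variable {F : Type*} [NormedAddCommGroup F] [NormedSpace ℂ F]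

lemma ext_bas {w : I → ℝ} (hw : ∀ i, 0 < w i) {S T : L I →L[ℂ] F}
    (h : ∀ i, S (bas w i) = T (bas w i)) : S = T := by
  ext f
  have h1 := (hasSum_bas hw f).mapL S
  have h2 := (hasSum_bas hw f).mapL T
  refine h1.unique ?_
  convert h2 using 2 with i
  rw [map_smul, map_smul, h]



omit [DecidableEq I] in
lemma summable_lift {w : I → ℝ} (hw : ∀ i, 0 < w i) {φ : I → F} {K : ℝ}
    (hφ : ∀ i, ‖φ i‖ ≤ K * w i) (f : L I) :
    Summable fun i => ‖(f i / (w i : ℂ)) • φ i‖ := by
  refine Summable.of_nonneg_of_le (fun i => norm_nonneg _) (fun i => ?_)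
    ((summable_norm f).mul_left K)
  rw [norm_smul, norm_div, Complex.norm_real, Real.norm_of_nonneg (hw i).le]
  calc ‖f i‖ / w i * ‖φ i‖ ≤ ‖f i‖ / w i * (K * w i) :=
        mul_le_mul_of_nonneg_left (hφ i) (div_nonneg (norm_nonneg _) (hw i).le)
    _ = K * ‖f i‖ := by
        field_simp [(hw i).ne']

/-- every bounded family is the family of images of the weighted unit vectors under a continuous
linear map -/
theorem exists_lift [CompleteSpace F] {w : I → ℝ} (hw : ∀ i, 0 < w i) (φ : I → F) {K : ℝ} (hK : 0 ≤ K)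
    (hφ : ∀ i, ‖φ i‖ ≤ K * w i) :
    ∃ T : L I →L[ℂ] F, (∀ i, T (bas w i) = φ i) ∧ ‖T‖ ≤ K := by
  classical
  let T₀ : L I →ₗ[ℂ] F :=
    { toFun := fun f => ∑' i, (f i / (w i : ℂ)) • φ i
      map_add' := by
        intro f g
        rw [← ((summable_lift hw hφ f).of_norm).tsum_add ((summable_lift hw hφ g).of_norm)]
        refine tsum_congr fun i => ?_
        rw [← add_smul]
        congr 1
        simp only [lp.coeFn_add, Pi.add_apply]
        ring
      map_smul' := by
        intro c f
        rw [RingHom.id_apply, ← ((summable_lift hw hφ f).of_norm).tsum_const_smul c]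
        refine tsum_congr fun i => ?_
        rw [smul_smul]
        congr 1
        simp only [lp.coeFn_smul, Pi.smul_apply, smul_eq_mul]
        ring }
  have hb : ∀ f, ‖T₀ f‖ ≤ K * ‖f‖ := by
    intro f
    have h1 : ‖T₀ f‖ ≤ ∑' i, ‖(f i / (w i : ℂ)) • φ i‖ :=
      norm_tsum_le_tsum_norm (summable_lift hw hφ f)
    refine h1.trans ?_
    rw [norm_eq, ← tsum_mul_left]
    refine (summable_lift hw hφ f).tsum_le_tsum (fun i => ?_) ((summable_norm f).mul_left K)
    rw [norm_smul, norm_div, Complex.norm_real, Real.norm_of_nonneg (hw i).le]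
    calc ‖f i‖ / w i * ‖φ i‖ ≤ ‖f i‖ / w i * (K * w i) :=
          mul_le_mul_of_nonneg_left (hφ i) (div_nonneg (norm_nonneg _) (hw i).le)
      _ = K * ‖f i‖ := by
          field_simp [(hw i).ne']
  refine ⟨T₀.mkContinuous K hb, fun i => ?_, T₀.mkContinuous_norm_le hK hb⟩
  rw [LinearMap.mkContinuous_apply]
  change ∑' j, ((bas w i : I → ℂ) j / (w j : ℂ)) • φ j = φ i
  rw [tsum_eq_single i]
  · rw [bas_apply, if_pos rfl, div_self (Complex.ofReal_ne_zero.mpr (hw i).ne'), one_smul]
  · intro j hj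
    rw [bas_apply, if_neg hj, zero_div, zero_smul]

end

end Pool.Agent.H653R2.L1
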