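import Pool.Agent.H653R2.L1

/-!
Every element of a weighted semigroup algebra `ℓ¹(ℚ⁺, ω)` with a non-increasing weight is a sum of
four products.
-/

set_option autoImplicit false

namespace Pool.Agent.H653R2.QFactor

open Pool.Agent.H653R2.L1

/-- the semigroup `ℚ⁺` -/
abbrev S := {q : ℚ // 0 < q}

/-- a non-increasing weight bounded by one -/
structure Wt where
  w : S → ℝ
  pos : ∀ s, 0 < w s
  anti : Antitone w
  le_one : ∀ s, w s ≤ 1

lemma lt_add (a b : S) : a.1 < (a + b).1 := by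
  have := b.2
  change a.1 < a.1 + b.1
  linarith

lemma le_add (a b : S) : a ≤ a + b := (lt_add a b).le

namespace Wt
variable (Ω : Wt)

/-- the point mass at `q` -/
noncomputable abbrev e (q : S) : L S := bas Ω.w q

lemma shift_aux (a : S) : ∀ q, ‖Ω.e (q + a)‖ ≤ 1 * Ω.w q := by
  intro q
  rw [norm_bas Ω.pos, one_mul]
  exact Ω.anti (le_add q a)

/-- translation by `a` -/
noncomputable def shift (a : S) : L S →L[ℂ] L S :=
  (exists_lift Ω.pos (fun q => Ω.e (q + a)) zero_le_one (Ω.shift_aux a)).choose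

lemma shift_e (a q : S) : Ω.shift a (Ω.e q) = Ω.e (q + a) :=
  (exists_lift Ω.pos (fun q => Ω.e (q + a)) zero_le_one (Ω.shift_aux a)).choose_spec.1 q

lemma norm_shift (a : S) : ‖Ω.shift a‖ ≤ 1 :=
  (exists_lift Ω.pos (fun q => Ω.e (q + a)) zero_le_one (Ω.shift_aux a)).choose_spec.2

lemma shift_comm (a b : S) : Commute (Ω.shift a) (Ω.shift b) := by
  refine ext_bas Ω.pos fun q => ?_
  change Ω.shift a (Ω.shift b (Ω.e q)) = Ω.shift b (Ω.shift a (Ω.e q))
  rw [shift_e, shift_e, shift_e, shift_e, add_assoc, add_comm b a, add_assoc]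

end Wt

/-- a sequence of positive rationals tending rapidly to zero -/
structure Sq where
  p : ℕ → S
  half : ∀ j, 2 * (p (j + 1)).1 ≤ (p j).1
  small : ∀ s : S, ∃ j, 2 * (p j).1 < s.1

/-- the coefficients of the high part -/
noncomputable def h (n : ℕ) : ℂ := if (n + 1) % 4 = 0 then (((1 / 10000 : ℝ) ^ (n + 1) : ℝ) : ℂ) else 0

/-- the coefficients of the low part -/
noncomputable def c (j l : ℕ) : ℂ := if l % 4 = j % 4 then (((10000 : ℝ) ^ (j - l) : ℝ) : ℂ) else 0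

/-- the coefficients of the four generators -/
noncomputable def d (k l : ℕ) : ℂ := if l % 4 = k then (((1 / 10000 : ℝ) ^ l : ℝ) : ℂ) else 0

lemma norm_h_le (n : ℕ) : ‖h n‖ ≤ (1 / 10000) ^ (n + 1) := by
  unfold h
  split_ifs
  · rw [Complex.norm_real, Real.norm_of_nonneg (by positivity)]
  · rw [norm_zero]; positivity

lemma h_eq_zero {n : ℕ} (hn : n < 3) : h n = 0 := by
  unfold h
  rw [if_neg (by omega)]

lemma norm_d_le (k l : ℕ) : ‖d k l‖ ≤ (1 / 10000) ^ l := by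
  unfold d
  split_ifs
  · rw [Complex.norm_real, Real.norm_of_nonneg (by positivity)]
  · rw [norm_zero]; positivity

lemma summable_norm_h : Summable fun n => ‖h n‖ := by
  refine Summable.of_nonneg_of_le (fun _ => norm_nonneg _) norm_h_le ?_
  have := (summable_geometric_of_lt_one (r := (1 / 10000 : ℝ)) (by norm_num) (by norm_num)).mul_right
    (1 / 10000 : ℝ)
  simpa only [pow_succ] using this

lemma summable_norm_d (k : ℕ) : Summable fun n => ‖d k n‖ :=
  Summable.of_nonneg_of_le (fun _ => norm_nonneg _) (norm_d_le k)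
    (summable_geometric_of_lt_one (by norm_num) (by norm_num))

lemma tsum_norm_h : ∑' n, ‖h n‖ ≤ 1 := by
  have h1 : Summable fun n : ℕ => (1 / 10000 : ℝ) ^ (n + 1) := by
    have := (summable_geometric_of_lt_one (r := (1 / 10000 : ℝ)) (by norm_num) (by norm_num)).mul_right
      (1 / 10000 : ℝ)
    simpa only [pow_succ] using this
  refine (summable_norm_h.tsum_le_tsum norm_h_le h1).trans ?_
  simp only [pow_succ]
  rw [tsum_mul_right, tsum_geometric_of_lt_one (by norm_num) (by norm_num)]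
  norm_num

/-- the bounding sequence -/
noncomputable def g (n : ℕ) : ℝ := if n < 3 then 0 else 100 * (1 / 10) ^ n

lemma norm_h_mul (n : ℕ) : ‖h n‖ * 10 ^ (3 * n + 6) ≤ g n := by
  unfold g
  split_ifs with hn
  · rw [h_eq_zero hn]; simp
  · calc ‖h n‖ * 10 ^ (3 * n + 6) ≤ (1 / 10000) ^ (n + 1) * 10 ^ (3 * n + 6) := by
          gcongr; exact norm_h_le n
      _ = 100 * (1 / 10) ^ n := by
          rw [show (10000 : ℝ) = 10 ^ 4 by norm_num]
          rw [one_div_pow, one_div_pow, ← pow_mul]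
          have e1 : (10 : ℝ) ^ (4 * (n + 1)) = 10 ^ (3 * n + 6) * (10 ^ n / 100) := by
            have : (10 : ℝ) ^ (4 * (n + 1)) * 100 = 10 ^ (3 * n + 6) * 10 ^ n := by
              rw [← pow_add, show (100 : ℝ) = 10 ^ 2 by norm_num, ← pow_add]
              congr 1
              ring
            field_simp
            linarith
          rw [e1]
          field_simp

lemma hasSum_g : HasSum g (1 / 9) := by
  rw [← hasSum_nat_add_iff' 3]
  have h1 : ∑ i ∈ Finset.range 3, g i = 0 := by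
    simp [Finset.sum_range_succ, g]
  rw [h1, sub_zero]
  have h2 : (fun n => g (n + 3)) = fun n : ℕ => (1 / 10 : ℝ) * (1 / 10) ^ n := by
    funext n
    unfold g
    rw [if_neg (by omega), pow_add]
    ring
  rw [h2]
  have := (hasSum_geometric_of_lt_one (r := (1 / 10 : ℝ)) (by norm_num) (by norm_num)).mul_left
    (1 / 10 : ℝ)
  have e : (1 / 9 : ℝ) = 1 / 10 * (1 - 1 / 10)⁻¹ := by norm_num
  rw [e]
  exact this

namespace Sq
variable (P : Sq)

/-- the level of `s`: the first `j` with `2 p j < s` -/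
noncomputable def J (s : S) : ℕ := sInf {j | 2 * (P.p j).1 < s.1}

lemma J_spec (s : S) : 2 * (P.p (P.J s)).1 < s.1 := Nat.sInf_mem (P.small s)

lemma J_le {s : S} {j : ℕ} (hj : 2 * (P.p j).1 < s.1) : P.J s ≤ j := Nat.sInf_le hj

lemma J_le_of_lt {s : S} {l : ℕ} (hl : (P.p l).1 < s.1) : P.J s ≤ l + 1 :=
  P.J_le ((P.half l).trans_lt hl)

/-- the cost of `s` -/
noncomputable def W (s : S) : ℝ := 10 ^ (6 * P.J s)

lemma W_pos (s : S) : 0 < P.W s := by unfold W; positivity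

lemma one_le_W (s : S) : 1 ≤ P.W s := one_le_pow₀ (by norm_num)

lemma W_le {s : S} {l : ℕ} (hl : (P.p l).1 < s.1) : P.W s ≤ 10 ^ (6 * (l + 1)) :=
  pow_le_pow_right₀ (by norm_num) (Nat.mul_le_mul_left 6 (P.J_le_of_lt hl))

/-- `s - 2 p j`, where `j` is the level of `s` -/
noncomputable def v (s : S) : S := ⟨s.1 - 2 * (P.p (P.J s)).1, by linarith [P.J_spec s]⟩

lemma v_add (s : S) : P.v s + P.p (P.J s) + P.p (P.J s) = s := by
  apply Subtype.ext
  change s.1 - 2 * (P.p (P.J s)).1 + (P.p (P.J s)).1 + (P.p (P.J s)).1 = s.1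
  ring

end Sq

variable (Ω : Wt) (P : Sq)

/-- the weight on pairs -/
noncomputable def w2 (x : S × S) : ℝ := Ω.w x.1 * P.W x.2

lemma w2_pos (x : S × S) : 0 < w2 Ω P x := mul_pos (Ω.pos _) (P.W_pos _)

/-- the basis of the space of pairs -/
noncomputable abbrev D (r s : S) : L (S × S) := bas (w2 Ω P) (r, s)

lemma norm_D (r s : S) : ‖D Ω P r s‖ = Ω.w r * P.W s := norm_bas (w2_pos Ω P) (r, s)

/-- the operator of convolution with the generator number `k` -/
noncomputable def X (k : ℕ) : L S →L[ℂ] L S := ∑' l, d k l • Ω.shift (P.p l)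

/-- the high part -/
noncomputable def Y (j : ℕ) : L S →L[ℂ] L S := ∑' n, h n • Ω.shift (P.p (j + 1 + n))

/-- the low part -/
noncomputable def Lo (j : ℕ) : L S →L[ℂ] L S := ∑ l ∈ Finset.range j, c j l • Ω.shift (P.p l)

lemma norm_smul_shift_le (a : ℂ) (q : S) : ‖a • Ω.shift q‖ ≤ ‖a‖ := by
  rw [norm_smul]
  exact mul_le_of_le_one_right (norm_nonneg _) (Ω.norm_shift q)

lemma summable_X (k : ℕ) : Summable fun l => ‖d k l • Ω.shift (P.p l)‖ :=
  Summable.of_nonneg_of_le (fun _ => norm_nonneg _) (fun _ => norm_smul_shift_le Ω _ _)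
    (summable_norm_d k)

lemma summable_Y (j : ℕ) : Summable fun n => ‖h n • Ω.shift (P.p (j + 1 + n))‖ :=
  Summable.of_nonneg_of_le (fun _ => norm_nonneg _) (fun _ => norm_smul_shift_le Ω _ _)
    summable_norm_h

lemma norm_Y_le (j : ℕ) : ‖Y Ω P j‖ ≤ 1 := by
  refine (norm_tsum_le_tsum_norm (summable_Y Ω P j)).trans ?_
  exact ((summable_Y Ω P j).tsum_le_tsum (fun _ => norm_smul_shift_le Ω _ _)
    summable_norm_h).trans tsum_norm_h

lemma X_eq (j : ℕ) : X Ω P (j % 4) =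
    (((1 / 10000 : ℝ) ^ j : ℝ) : ℂ) • (Lo Ω P j + Ω.shift (P.p j) + Y Ω P j) := by
  unfold X
  rw [← (summable_X Ω P (j % 4)).of_norm.sum_add_tsum_nat_add (j + 1), Finset.sum_range_succ,
    smul_add, smul_add]
  have hpos : ((10000 : ℝ)) ≠ 0 := by norm_num
  congr 1
  · congr 1
    · unfold Lo
      rw [Finset.smul_sum]
      refine Finset.sum_congr rfl fun l hl => ?_
      rw [Finset.mem_range] at hl
      rw [smul_smul]
      congr 1
      unfold d c
      split_ifs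
      · rw [← Complex.ofReal_mul]
        congr 1
        have : (1 / 10000 : ℝ) ^ j = (1 / 10000) ^ l * (1 / 10000) ^ (j - l) := by
          rw [← pow_add]; congr 1; omega
        rw [this, mul_assoc, ← mul_pow]
        norm_num
      · rw [mul_zero]
    · unfold d
      rw [if_pos rfl]
  · unfold Y
    rw [← (summable_Y Ω P j).of_norm.tsum_const_smul]
    refine tsum_congr fun n => ?_
    rw [smul_smul, show n + (j + 1) = j + 1 + n by ring]
    congr 1
    unfold d h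
    by_cases hn : (n + 1) % 4 = 0
    · rw [if_pos hn, if_pos (by omega), ← Complex.ofReal_mul, ← pow_add]
      congr 2
      ring
    · rw [if_neg hn, if_neg (by omega), mul_zero]

/-- the vector `(x_j - y_j) δ_{r + v}` -/
noncomputable def al0 (r s : S) : L S :=
  (Ω.shift (P.p (P.J s)) - Y Ω P (P.J s)) (Ω.e (r + P.v s))

lemma norm_e_le (r s : S) : ‖Ω.e (r + s)‖ ≤ Ω.w r := by
  rw [norm_bas Ω.pos]
  exact Ω.anti (le_add r s)

lemma norm_al0 (r s : S) : ‖al0 Ω P r s‖ ≤ 2 * Ω.w r := by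
  have h1 : ‖Ω.shift (P.p (P.J s)) - Y Ω P (P.J s)‖ ≤ 2 :=
    (norm_sub_le _ _).trans (by linarith [Ω.norm_shift (P.p (P.J s)), norm_Y_le Ω P (P.J s)])
  exact (ContinuousLinearMap.le_opNorm _ _).trans
    (mul_le_mul h1 (norm_e_le Ω r _) (norm_nonneg _) (by norm_num))

/-- the cofactor -/
noncomputable def al (r s : S) : L S := (((10000 : ℝ) ^ (P.J s) : ℝ) : ℂ) • al0 Ω P r s

lemma norm_al (r s : S) : ‖al Ω P r s‖ ≤ 2 * w2 Ω P (r, s) := by
  unfold al
  rw [norm_smul, Complex.norm_real, Real.norm_of_nonneg (by positivity)]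
  have h1 : (10000 : ℝ) ^ P.J s ≤ P.W s := by
    unfold Sq.W
    rw [pow_mul]
    exact pow_le_pow_left₀ (by norm_num) (by norm_num) _
  calc (10000 : ℝ) ^ P.J s * ‖al0 Ω P r s‖ ≤ P.W s * (2 * Ω.w r) :=
        mul_le_mul h1 (norm_al0 Ω P r s) (norm_nonneg _) (P.W_pos s).le
    _ = 2 * w2 Ω P (r, s) := by unfold w2; ring

lemma commute_Y (j : ℕ) (a : S) : Commute (Ω.shift a) (Y Ω P j) := by
  unfold Y
  refine Commute.tsum_right _ fun n => ?_
  exact (Ω.shift_comm _ _).smul_right _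

lemma X_al (r s : S) : X Ω P (P.J s % 4) (al Ω P r s) =
    Ω.e (r + s) - Y Ω P (P.J s) (Y Ω P (P.J s) (Ω.e (r + P.v s))) + Lo Ω P (P.J s) (al0 Ω P r s) := by
  set j := P.J s with hj
  have h1 : ((((1 / 10000 : ℝ) ^ j : ℝ) : ℂ)) * (((10000 : ℝ) ^ j : ℝ) : ℂ) = 1 := by
    rw [← Complex.ofReal_mul, ← mul_pow]
    norm_num
  rw [X_eq, al, ← hj, smul_apply, map_smul, smul_smul, h1, one_smul]
  rw [add_apply, add_apply]
  have h2 : Ω.shift (P.p j) (al0 Ω P r s) + Y Ω P j (al0 Ω P r s) =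
      Ω.e (r + s) - Y Ω P j (Y Ω P j (Ω.e (r + P.v s))) := by
    have hc := (commute_Y Ω P j (P.p j)).eq
    have hc' : Ω.shift (P.p j) (Y Ω P j (Ω.e (r + P.v s))) =
        Y Ω P j (Ω.shift (P.p j) (Ω.e (r + P.v s))) :=
      congrArg (fun T : L S →L[ℂ] L S => T (Ω.e (r + P.v s))) hc
    have he : Ω.shift (P.p j) (Ω.shift (P.p j) (Ω.e (r + P.v s))) = Ω.e (r + s) := by
      rw [Ω.shift_e, Ω.shift_e]
      congr 1
      rw [add_assoc r, add_assoc r, hj, P.v_add]
    unfold al0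
    rw [← hj, sub_apply, map_sub, map_sub, hc', he]
    abel
  rw [add_assoc, h2]
  abel

/-! ### the remainder, in the space of pairs -/

/-- the high-high part of the remainder -/
noncomputable def tHH (r s : S) : L (S × S) := ∑' z : ℕ × ℕ,
  (h z.1 * h z.2) • D Ω P r (P.v s + P.p (P.J s + 1 + z.2) + P.p (P.J s + 1 + z.1))

/-- the low part of the remainder -/
noncomputable def tL (r s : S) : L (S × S) := ∑ l ∈ Finset.range (P.J s), c (P.J s) l •
  (D Ω P r (P.v s + P.p (P.J s) + P.p l) -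
    ∑' n, h n • D Ω P r (P.v s + P.p (P.J s + 1 + n) + P.p l))

lemma W_le_pow (v a : S) (l : ℕ) : P.W (v + a + P.p l) ≤ 10 ^ (6 * (l + 1)) := by
  apply P.W_le
  rw [add_comm]
  exact lt_add _ _

lemma W_le_pow' (v a : S) (l : ℕ) : P.W (v + P.p l + a) ≤ 10 ^ (6 * (l + 1)) := by
  apply P.W_le
  rw [add_assoc, add_comm, add_assoc]
  exact lt_add _ _

lemma norm_tHH_term (r s : S) (z : ℕ × ℕ) :
    ‖(h z.1 * h z.2) • D Ω P r (P.v s + P.p (P.J s + 1 + z.2) + P.p (P.J s + 1 + z.1))‖ ≤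
      (w2 Ω P (r, s)) * (g z.1 * g z.2) := by
  rw [norm_smul, norm_mul, norm_D]
  have h0 : P.W (P.v s + P.p (P.J s + 1 + z.2) + P.p (P.J s + 1 + z.1)) ≤
      P.W s * (10 ^ (3 * z.1 + 6) * 10 ^ (3 * z.2 + 6)) := by
    unfold Sq.W
    rcases le_total z.1 z.2 with hz | hz
    · refine (W_le_pow P _ _ _).trans ?_
      rw [← pow_add, ← pow_add]
      exact pow_le_pow_right₀ (by norm_num) (by omega)
    · refine (W_le_pow' P _ _ _).trans ?_
      rw [← pow_add, ← pow_add]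
      exact pow_le_pow_right₀ (by norm_num) (by omega)
  have h1 := norm_h_mul z.1
  have h2 := norm_h_mul z.2
  calc ‖h z.1‖ * ‖h z.2‖ * (Ω.w r * P.W (P.v s + P.p (P.J s + 1 + z.2) + P.p (P.J s + 1 + z.1)))
      ≤ ‖h z.1‖ * ‖h z.2‖ * (Ω.w r * (P.W s * (10 ^ (3 * z.1 + 6) * 10 ^ (3 * z.2 + 6)))) := by
        have := (Ω.pos r).le
        gcongr
    _ = (Ω.w r * P.W s) * ((‖h z.1‖ * 10 ^ (3 * z.1 + 6)) * (‖h z.2‖ * 10 ^ (3 * z.2 + 6))) := by
        ring
    _ ≤ (Ω.w r * P.W s) * (g z.1 * g z.2) := by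
        have h3 := (w2_pos Ω P (r, s)).le
        unfold w2 at h3
        refine mul_le_mul_of_nonneg_left ?_ h3
        exact mul_le_mul h1 h2 (by positivity) (le_trans (by positivity) h1)
    _ = _ := rfl

lemma g_nonneg (n : ℕ) : 0 ≤ g n := by
  unfold g
  split_ifs <;> positivity

lemma summable_gg : Summable fun z : ℕ × ℕ => g z.1 * g z.2 :=
  hasSum_g.summable.mul_of_nonneg hasSum_g.summable g_nonneg g_nonneg

lemma tsum_gg : ∑' z : ℕ × ℕ, g z.1 * g z.2 = 1 / 81 := by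
  rw [← hasSum_g.summable.tsum_mul_tsum hasSum_g.summable summable_gg, hasSum_g.tsum_eq]
  norm_num

lemma summable_tHH (r s : S) : Summable fun z : ℕ × ℕ =>
    ‖(h z.1 * h z.2) • D Ω P r (P.v s + P.p (P.J s + 1 + z.2) + P.p (P.J s + 1 + z.1))‖ :=
  Summable.of_nonneg_of_le (fun _ => norm_nonneg _) (norm_tHH_term Ω P r s)
    (summable_gg.mul_left _)

lemma norm_tHH (r s : S) : ‖tHH Ω P r s‖ ≤ 1 / 81 * w2 Ω P (r, s) := by
  refine (norm_tsum_le_tsum_norm (summable_tHH Ω P r s)).trans ?_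
  refine ((summable_tHH Ω P r s).tsum_le_tsum (norm_tHH_term Ω P r s)
    (summable_gg.mul_left _)).trans ?_
  rw [tsum_mul_left, tsum_gg, mul_comm]

lemma norm_tL_inner_term (r s : S) (l n : ℕ) :
    ‖h n • D Ω P r (P.v s + P.p (P.J s + 1 + n) + P.p l)‖ ≤
      ‖h n‖ * (Ω.w r * 10 ^ (6 * (l + 1))) := by
  rw [norm_smul, norm_D]
  have := (Ω.pos r).le
  gcongr
  exact W_le_pow P _ _ _

lemma summable_tL_inner (r s : S) (l : ℕ) :
    Summable fun n => ‖h n • D Ω P r (P.v s + P.p (P.J s + 1 + n) + P.p l)‖ :=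
  Summable.of_nonneg_of_le (fun _ => norm_nonneg _) (norm_tL_inner_term Ω P r s l)
    (summable_norm_h.mul_right _)

lemma norm_tL_inner (r s : S) (l : ℕ) :
    ‖D Ω P r (P.v s + P.p (P.J s) + P.p l) -
      ∑' n, h n • D Ω P r (P.v s + P.p (P.J s + 1 + n) + P.p l)‖ ≤
      2 * (Ω.w r * 10 ^ (6 * (l + 1))) := by
  have hpos : 0 ≤ Ω.w r * 10 ^ (6 * (l + 1)) := mul_nonneg (Ω.pos r).le (by positivity)
  have h1 : ‖D Ω P r (P.v s + P.p (P.J s) + P.p l)‖ ≤ Ω.w r * 10 ^ (6 * (l + 1)) := by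
    rw [norm_D]
    have := (Ω.pos r).le
    gcongr
    exact W_le_pow P _ _ _
  have h2 : ‖∑' n, h n • D Ω P r (P.v s + P.p (P.J s + 1 + n) + P.p l)‖ ≤
      Ω.w r * 10 ^ (6 * (l + 1)) := by
    refine (norm_tsum_le_tsum_norm (summable_tL_inner Ω P r s l)).trans ?_
    refine ((summable_tL_inner Ω P r s l).tsum_le_tsum (norm_tL_inner_term Ω P r s l)
      (summable_norm_h.mul_right _)).trans ?_
    rw [tsum_mul_right]
    exact mul_le_of_le_one_left hpos tsum_norm_h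
  refine (norm_sub_le _ _).trans ?_
  linarith

lemma norm_c_mul {j l : ℕ} (hl : l < j) :
    ‖c j l‖ * 10 ^ (6 * (l + 1)) ≤ if l + 3 < j then 10 ^ (4 * j + 6) * 100 ^ l else 0 := by
  unfold c
  split_ifs with h1 h2 h2
  · rw [Complex.norm_real, Real.norm_of_nonneg (by positivity),
      show (10000 : ℝ) = 10 ^ 4 by norm_num, show (100 : ℝ) = 10 ^ 2 by norm_num, ← pow_mul,
      ← pow_mul, ← pow_add, ← pow_add]
    exact pow_le_pow_right₀ (by norm_num) (by omega)
  · exfalso; omega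
  · rw [norm_zero, zero_mul]; positivity
  · rw [norm_zero, zero_mul]

lemma sum_ite_le (j : ℕ) :
    ∑ l ∈ Finset.range j, (if l + 3 < j then (10 : ℝ) ^ (4 * j + 6) * 100 ^ l else 0) ≤
      10 ^ (6 * j) / 99 := by
  rcases lt_or_ge j 3 with hj | hj
  · rw [Finset.sum_eq_zero]
    · positivity
    · intro l _
      rw [if_neg (by omega)]
  · obtain ⟨m, rfl⟩ := Nat.exists_eq_add_of_le' hj
    rw [Finset.sum_range_succ, Finset.sum_range_succ, Finset.sum_range_succ,
      if_neg (by omega), if_neg (by omega), if_neg (by omega), add_zero, add_zero, add_zero]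
    have h1 : ∑ l ∈ Finset.range m, (if l + 3 < m + 3 then (10 : ℝ) ^ (4 * (m + 3) + 6) * 100 ^ l
        else 0) = 10 ^ (4 * (m + 3) + 6) * ((100 ^ m - 1) / 99) := by
      rw [show (99 : ℝ) = 100 - 1 by norm_num, ← geom_sum_eq (by norm_num), Finset.mul_sum]
      refine Finset.sum_congr rfl fun l hl => ?_
      rw [Finset.mem_range] at hl
      rw [if_pos (by omega)]
    rw [h1]
    have h2 : (10 : ℝ) ^ (6 * (m + 3)) = 10 ^ (4 * (m + 3) + 6) * 100 ^ m := by
      rw [show (100 : ℝ) = 10 ^ 2 by norm_num, ← pow_mul, ← pow_add]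
      congr 1
      ring
    rw [h2, mul_div_assoc]
    gcongr
    linarith

lemma norm_tL (r s : S) : ‖tL Ω P r s‖ ≤ 2 / 99 * w2 Ω P (r, s) := by
  unfold tL
  refine (norm_sum_le _ _).trans ?_
  have h1 : ∀ l ∈ Finset.range (P.J s), ‖c (P.J s) l •
      (D Ω P r (P.v s + P.p (P.J s) + P.p l) -
        ∑' n, h n • D Ω P r (P.v s + P.p (P.J s + 1 + n) + P.p l))‖ ≤
      2 * Ω.w r * (if l + 3 < P.J s then 10 ^ (4 * P.J s + 6) * 100 ^ l else 0) := by
    intro l hl
    rw [Finset.mem_range] at hl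
    rw [norm_smul]
    calc ‖c (P.J s) l‖ * _ ≤ ‖c (P.J s) l‖ * (2 * (Ω.w r * 10 ^ (6 * (l + 1)))) :=
          mul_le_mul_of_nonneg_left (norm_tL_inner Ω P r s l) (norm_nonneg _)
      _ = 2 * Ω.w r * (‖c (P.J s) l‖ * 10 ^ (6 * (l + 1))) := by ring
      _ ≤ _ := mul_le_mul_of_nonneg_left (norm_c_mul hl) (by linarith [Ω.pos r])
  refine (Finset.sum_le_sum h1).trans ?_
  rw [← Finset.mul_sum]
  calc 2 * Ω.w r * _ ≤ 2 * Ω.w r * (10 ^ (6 * P.J s) / 99) :=
        mul_le_mul_of_nonneg_left (sum_ite_le _) (by linarith [Ω.pos r])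
    _ = 2 / 99 * w2 Ω P (r, s) := by
        unfold w2 Sq.W
        ring

lemma norm_t (r s : S) : ‖tHH Ω P r s - tL Ω P r s‖ ≤ 1 / 2 * w2 Ω P (r, s) := by
  refine (norm_sub_le _ _).trans ?_
  have := (w2_pos Ω P (r, s)).le
  linarith [norm_tHH Ω P r s, norm_tL Ω P r s]

/-! ### the three operators -/

lemma exists_iota : ∃ ι : L (S × S) →L[ℂ] L S, ∀ r s, ι (D Ω P r s) = Ω.e (r + s) := by
  obtain ⟨ι, hι, -⟩ := exists_lift (w2_pos Ω P) (fun x : S × S => Ω.e (x.1 + x.2)) zero_le_one (by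
    intro x
    rw [one_mul]
    refine (norm_e_le Ω x.1 x.2).trans ?_
    exact le_mul_of_one_le_right (Ω.pos _).le (P.one_le_W _))
  exact ⟨ι, fun r s => hι (r, s)⟩

lemma exists_T : ∃ T : L (S × S) →L[ℂ] L (S × S),
    (∀ r s, T (D Ω P r s) = tHH Ω P r s - tL Ω P r s) ∧ ‖T‖ ≤ 1 / 2 := by
  obtain ⟨T, hT, hn⟩ := exists_lift (w2_pos Ω P)
    (fun x : S × S => tHH Ω P x.1 x.2 - tL Ω P x.1 x.2) (by norm_num : (0 : ℝ) ≤ 1 / 2)
    (fun x => norm_t Ω P x.1 x.2)
  exact ⟨T, fun r s => hT (r, s), hn⟩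

lemma exists_R (k : ℕ) : ∃ R : L (S × S) →L[ℂ] L S,
    ∀ r s, R (D Ω P r s) = if P.J s % 4 = k then al Ω P r s else 0 := by
  obtain ⟨R, hR, -⟩ := exists_lift (w2_pos Ω P)
    (fun x : S × S => if P.J x.2 % 4 = k then al Ω P x.1 x.2 else 0)
    (by norm_num : (0 : ℝ) ≤ 2) (by
      intro x
      split_ifs
      · exact norm_al Ω P x.1 x.2
      · rw [norm_zero]
        exact mul_nonneg (by norm_num) (w2_pos Ω P x).le)
  exact ⟨R, fun r s => hR (r, s)⟩

lemma iota_tHH {ι : L (S × S) →L[ℂ] L S} (hι : ∀ r s, ι (D Ω P r s) = Ω.e (r + s)) (r s : S) :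
    ι (tHH Ω P r s) = Y Ω P (P.J s) (Y Ω P (P.J s) (Ω.e (r + P.v s))) := by
  have h1 : Y Ω P (P.J s) (Y Ω P (P.J s) (Ω.e (r + P.v s))) =
      (Y Ω P (P.J s) * Y Ω P (P.J s)) (Ω.e (r + P.v s)) := rfl
  have h2 : Y Ω P (P.J s) * Y Ω P (P.J s) = ∑' z : ℕ × ℕ,
      (h z.1 • Ω.shift (P.p (P.J s + 1 + z.1))) * (h z.2 • Ω.shift (P.p (P.J s + 1 + z.2))) :=
    tsum_mul_tsum_of_summable_norm (summable_Y Ω P _) (summable_Y Ω P _)
  have hs : Summable fun z : ℕ × ℕ =>
      (h z.1 • Ω.shift (P.p (P.J s + 1 + z.1))) * (h z.2 • Ω.shift (P.p (P.J s + 1 + z.2))) :=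
    summable_mul_of_summable_norm
      (f := fun n => h n • Ω.shift (P.p (P.J s + 1 + n)))
      (g := fun n => h n • Ω.shift (P.p (P.J s + 1 + n)))
      (summable_Y Ω P _) (summable_Y Ω P _)
  rw [h1, h2, tHH, ι.map_tsum (summable_tHH Ω P r s).of_norm]
  have h3 := (ContinuousLinearMap.apply ℂ (L S) (Ω.e (r + P.v s))).map_tsum hs
  rw [ContinuousLinearMap.apply_apply] at h3
  rw [h3]
  refine tsum_congr fun z => ?_
  rw [map_smul, hι, ContinuousLinearMap.apply_apply]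
  change _ = (h z.1 • Ω.shift (P.p (P.J s + 1 + z.1)))
    ((h z.2 • Ω.shift (P.p (P.J s + 1 + z.2))) (Ω.e (r + P.v s)))
  rw [smul_apply, smul_apply, map_smul, Ω.shift_e, Ω.shift_e, smul_smul]
  congr 2
  rw [add_assoc r, add_assoc r]

lemma Y_e (j : ℕ) (q : S) : Y Ω P j (Ω.e q) = ∑' n, h n • Ω.e (q + P.p (j + 1 + n)) := by
  have h3 := (ContinuousLinearMap.apply ℂ (L S) (Ω.e q)).map_tsum (summable_Y Ω P j).of_norm
  rw [ContinuousLinearMap.apply_apply] at h3
  unfold Y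
  rw [h3]
  refine tsum_congr fun n => ?_
  rw [ContinuousLinearMap.apply_apply, smul_apply, Ω.shift_e]

lemma summable_Y_e (j : ℕ) (q : S) : Summable fun n => h n • Ω.e (q + P.p (j + 1 + n)) := by
  refine Summable.of_norm (Summable.of_nonneg_of_le (fun _ => norm_nonneg _) (fun n => ?_)
    (summable_norm_h.mul_right (Ω.w q)))
  rw [norm_smul]
  exact mul_le_mul_of_nonneg_left (norm_e_le Ω _ _) (norm_nonneg _)

lemma iota_tL {ι : L (S × S) →L[ℂ] L S} (hι : ∀ r s, ι (D Ω P r s) = Ω.e (r + s)) (r s : S) :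
    ι (tL Ω P r s) = Lo Ω P (P.J s) (al0 Ω P r s) := by
  unfold tL Lo
  rw [map_sum, sum_apply]
  refine Finset.sum_congr rfl fun l _ => ?_
  rw [map_smul, smul_apply]
  congr 1
  rw [map_sub, hι, ι.map_tsum (summable_tL_inner Ω P r s l).of_norm, al0, sub_apply, map_sub,
    Ω.shift_e, Ω.shift_e, Y_e, (Ω.shift (P.p l)).map_tsum (summable_Y_e Ω P _ _)]
  congr 1
  · congr 1
    rw [add_assoc r, add_assoc r]
  · refine tsum_congr fun n => ?_
    rw [map_smul, hι, map_smul, Ω.shift_e]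
    congr 2
    rw [add_assoc r, add_assoc r]

/-- Every vector in the image of the space of pairs is a sum of four multiples of the
generators. -/
theorem four_products (F : L (S × S)) {ι : L (S × S) →L[ℂ] L S}
    (hι : ∀ r s, ι (D Ω P r s) = Ω.e (r + s)) :
    ∃ G : ℕ → L S, ι F = ∑ k ∈ Finset.range 4, X Ω P k (G k) := by
  obtain ⟨T, hT, hTn⟩ := exists_T Ω P
  choose R hR using exists_R Ω P
  have key : ι - ι.comp T = ∑ k ∈ Finset.range 4, (X Ω P k).comp (R k) := by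
    refine ext_bas (w2_pos Ω P) fun x => ?_
    obtain ⟨r, s⟩ := x
    rw [sub_apply, ContinuousLinearMap.comp_apply, hι, hT, map_sub, iota_tHH Ω P hι,
      iota_tL Ω P hι, sum_apply]
    have h1 : ∑ k ∈ Finset.range 4, ((X Ω P k).comp (R k)) (bas (w2 Ω P) (r, s)) =
        X Ω P (P.J s % 4) (al Ω P r s) := by
      rw [Finset.sum_eq_single (P.J s % 4)]
      · rw [ContinuousLinearMap.comp_apply, hR, if_pos rfl]
      · intro k _ hk
        rw [ContinuousLinearMap.comp_apply, hR, if_neg (Ne.symm hk), map_zero]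
      · intro hk
        exact absurd (Finset.mem_range.2 (Nat.mod_lt _ (by norm_num))) hk
    rw [h1, X_al]
    abel
  have hlt : ‖T‖ < 1 := by linarith
  let u := Units.oneSub T hlt
  let U : L (S × S) := (↑(u⁻¹) : L (S × S) →L[ℂ] L (S × S)) F
  have hU : U - T U = F := by
    have h1 : (u : L (S × S) →L[ℂ] L (S × S)) * ↑(u⁻¹) = 1 := u.mul_inv
    have h2 : (u : L (S × S) →L[ℂ] L (S × S)) = 1 - T := rfl
    rw [h2] at h1
    have h3 : ((1 - T) * ↑(u⁻¹) : L (S × S) →L[ℂ] L (S × S)) F =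
        (1 : L (S × S) →L[ℂ] L (S × S)) F := by rw [h1]
    exact h3
  refine ⟨fun k => R k U, ?_⟩
  have h4 := congrArg (fun A : L (S × S) →L[ℂ] L S => A U) key
  simp only [sub_apply, ContinuousLinearMap.comp_apply, sum_apply] at h4
  rw [← h4, ← map_sub, hU]

end Pool.Agent.H653R2.QFactor
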