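import Pool.Agent.H653R2.QFactor

/-!
Weighted algebras `ℓ¹(ℚ⁺, ω)` on the level of functions.
-/

set_option autoImplicit false

namespace Pool.Agent.H653R2.QFactor

open Pool.Agent.H653R2.L1

/-- `f` belongs to `ℓ¹(ℚ⁺, ω)`: functions on `ℚ` which vanish outside `ℚ⁺` -/
def Mem (ω : ℚ → ℝ) (f : ℚ → ℂ) : Prop :=
  (∀ t, t ≤ 0 → f t = 0) ∧ Summable fun t => ‖f t‖ * ω t

/-- convolution -/
noncomputable def conv (f g : ℚ → ℂ) (t : ℚ) : ℂ := ∑' s : ℚ, f s * g (t - s)

variable (Ω : Wt)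

/-- the function given by a vector of `ℓ¹` -/
noncomputable def toF (G : L S) (t : ℚ) : ℂ :=
  if h : 0 < t then G ⟨t, h⟩ / (Ω.w ⟨t, h⟩ : ℂ) else 0

lemma toF_pos (G : L S) (t : S) : toF Ω G t.1 = G t / (Ω.w t : ℂ) := by
  unfold toF
  rw [dif_pos t.2]

lemma toF_nonpos (G : L S) {t : ℚ} (ht : t ≤ 0) : toF Ω G t = 0 := by
  unfold toF
  rw [dif_neg (not_lt.2 ht)]

lemma mem_toF {ω : ℚ → ℝ} (hω : ∀ s : S, Ω.w s = ω s.1) (G : L S) : Mem ω (toF Ω G) := by
  refine ⟨fun t ht => toF_nonpos Ω G ht, ?_⟩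
  have hinj : Function.Injective (Subtype.val : S → ℚ) := Subtype.val_injective
  rw [← hinj.summable_iff]
  · refine (summable_norm G).congr fun s => ?_
    simp only [Function.comp]
    rw [toF_pos, norm_div, Complex.norm_real, Real.norm_of_nonneg (Ω.pos s).le, ← hω,
      div_mul_cancel₀ _ (Ω.pos s).ne']
  · intro t ht
    have : t ≤ 0 := by
      by_contra h
      exact ht ⟨⟨t, not_le.1 h⟩, rfl⟩
    rw [toF_nonpos Ω G this, norm_zero, zero_mul]

lemma shift_apply (a : S) (G : L S) (t : S) :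
    (Ω.shift a G : S → ℂ) t / (Ω.w t : ℂ) = toF Ω G (t.1 - a.1) := by
  have hwt : ((Ω.w t : ℝ) : ℂ) ≠ 0 := by exact_mod_cast (Ω.pos t).ne'
  by_cases hat : a.1 < t.1
  · let u : S := ⟨t.1 - a.1, by linarith⟩
    have hwu : ((Ω.w u : ℝ) : ℂ) ≠ 0 := by exact_mod_cast (Ω.pos u).ne'
    have hu : u + a = t := by
      apply Subtype.ext
      change t.1 - a.1 + a.1 = t.1
      ring
    have key : (((Ω.w t : ℝ) : ℂ)⁻¹ • (lp.evalCLM ℂ (fun _ : S => ℂ) 1 t).comp (Ω.shift a)) =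
        ((Ω.w u : ℝ) : ℂ)⁻¹ • lp.evalCLM ℂ (fun _ : S => ℂ) 1 u := by
      refine ext_bas Ω.pos fun q => ?_
      rw [smul_apply, smul_apply, ContinuousLinearMap.comp_apply]
      rw [Ω.shift_e]
      change (((Ω.w t : ℝ) : ℂ)⁻¹ • (Ω.e (q + a) : S → ℂ) t) =
        ((Ω.w u : ℝ) : ℂ)⁻¹ • (Ω.e q : S → ℂ) u
      rw [bas_apply, bas_apply]
      by_cases hq : u = q
      · subst hq
        rw [if_pos hu.symm, if_pos rfl, smul_eq_mul, smul_eq_mul, inv_mul_cancel₀ hwt,
          inv_mul_cancel₀ hwu]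
      · rw [if_neg hq, if_neg, smul_zero, smul_zero]
        intro h
        apply hq
        rw [← hu] at h
        exact add_right_cancel h
    have h1 := congrArg (fun A : L S →L[ℂ] ℂ => A G) key
    have h2 : ((Ω.w t : ℝ) : ℂ)⁻¹ * (Ω.shift a G : S → ℂ) t = ((Ω.w u : ℝ) : ℂ)⁻¹ * G u := h1
    have h3 : toF Ω G (t.1 - a.1) = G u / (Ω.w u : ℂ) := toF_pos Ω G u
    rw [h3, div_eq_inv_mul, div_eq_inv_mul, h2]
  · rw [toF_nonpos Ω G (by linarith)]
    have key : ((lp.evalCLM ℂ (fun _ : S => ℂ) 1 t).comp (Ω.shift a)) = 0 := by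
      refine ext_bas Ω.pos fun q => ?_
      rw [ContinuousLinearMap.comp_apply, Ω.shift_e]
      change (Ω.e (q + a) : S → ℂ) t = 0
      rw [bas_apply, if_neg]
      rintro rfl
      apply hat
      rw [add_comm]
      exact lt_add a q
    have h1 := congrArg (fun A : L S →L[ℂ] ℂ => A G) key
    have h2 : (Ω.shift a G : S → ℂ) t = 0 := h1
    rw [h2, zero_div]

variable (P : Sq)

lemma p_strictAnti : StrictAnti fun j => (P.p j).1 := by
  refine strictAnti_nat_of_succ_lt fun j => ?_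
  have h1 := P.half j
  have h2 := (P.p (j + 1)).2
  linarith

lemma p_inj : Function.Injective fun j => (P.p j).1 := (p_strictAnti P).injective

/-- the generator number `k`, as a vector -/
noncomputable def xv (k : ℕ) : L S := ∑' l, d k l • Ω.e (P.p l)

lemma summable_xv (k : ℕ) : Summable fun l => d k l • Ω.e (P.p l) := by
  refine Summable.of_norm (Summable.of_nonneg_of_le (fun _ => norm_nonneg _) (fun l => ?_)
    (summable_norm_d k))
  rw [norm_smul, norm_bas Ω.pos]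
  exact mul_le_of_le_one_right (norm_nonneg _) (Ω.le_one _)

lemma xv_apply (k : ℕ) (t : S) :
    (xv Ω P k : S → ℂ) t / (Ω.w t : ℂ) = ∑' l, if t = P.p l then d k l else 0 := by
  have hwt : ((Ω.w t : ℝ) : ℂ) ≠ 0 := by exact_mod_cast (Ω.pos t).ne'
  have h1 := (lp.evalCLM ℂ (fun _ : S => ℂ) 1 t).map_tsum (summable_xv Ω P k)
  have h2 : (xv Ω P k : S → ℂ) t = ∑' l, (d k l • (Ω.e (P.p l) : S → ℂ) t) := h1
  rw [h2, div_eq_mul_inv, ← tsum_mul_right]
  refine tsum_congr fun l => ?_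
  rw [bas_apply]
  split_ifs
  · rw [smul_eq_mul, mul_assoc, mul_inv_cancel₀ hwt, mul_one]
  · rw [smul_zero, zero_mul]

lemma toF_xv_p (k l : ℕ) : toF Ω (xv Ω P k) (P.p l).1 = d k l := by
  rw [toF_pos, xv_apply, tsum_eq_single l]
  · rw [if_pos rfl]
  · intro m hm
    rw [if_neg]
    intro h
    exact hm (p_inj P (congrArg Subtype.val h.symm))

lemma toF_xv_zero (k : ℕ) {t : ℚ} (ht : t ∉ Set.range fun j => (P.p j).1) :
    toF Ω (xv Ω P k) t = 0 := by
  by_cases h : 0 < t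
  · have h1 := toF_pos Ω (xv Ω P k) ⟨t, h⟩
    rw [h1, xv_apply]
    have : ∀ l, (if (⟨t, h⟩ : S) = P.p l then d k l else 0) = 0 := by
      intro l
      rw [if_neg]
      intro h2
      exact ht ⟨l, congrArg Subtype.val h2.symm⟩
    simp only [this, tsum_zero]
  · exact toF_nonpos Ω _ (not_lt.1 h)

lemma conv_xv (k : ℕ) (G : L S) : conv (toF Ω (xv Ω P k)) (toF Ω G) = toF Ω (X Ω P k G) := by
  funext t
  have h1 : conv (toF Ω (xv Ω P k)) (toF Ω G) t = ∑' l, d k l * toF Ω G (t - (P.p l).1) := by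
    unfold conv
    rw [← (p_inj P).tsum_eq (f := fun s => toF Ω (xv Ω P k) s * toF Ω G (t - s))]
    · refine tsum_congr fun l => ?_
      rw [toF_xv_p]
    · intro s hs
      by_contra hn
      apply hs
      change toF Ω (xv Ω P k) s * toF Ω G (t - s) = 0
      rw [toF_xv_zero Ω P k hn, zero_mul]
  rw [h1]
  by_cases ht : 0 < t
  · have h2 := toF_pos Ω (X Ω P k G) ⟨t, ht⟩
    rw [h2]
    have h3 := (ContinuousLinearMap.apply ℂ (L S) G).map_tsum (summable_X Ω P k).of_norm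
    rw [ContinuousLinearMap.apply_apply] at h3
    have h4 : X Ω P k G = ∑' l, d k l • Ω.shift (P.p l) G := by
      unfold X
      rw [h3]
      refine tsum_congr fun l => ?_
      rw [ContinuousLinearMap.apply_apply, smul_apply]
    have hsum : Summable fun l => d k l • Ω.shift (P.p l) G := by
      refine Summable.of_norm (Summable.of_nonneg_of_le (fun _ => norm_nonneg _) (fun l => ?_)
        ((summable_norm_d k).mul_right ‖G‖))
      rw [norm_smul]
      refine mul_le_mul_of_nonneg_left ?_ (norm_nonneg _)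
      refine ((Ω.shift (P.p l)).le_opNorm G).trans ?_
      exact mul_le_of_le_one_left (norm_nonneg _) (Ω.norm_shift _)
    have h5 := (lp.evalCLM ℂ (fun _ : S => ℂ) 1 ⟨t, ht⟩).map_tsum hsum
    have h6 : (X Ω P k G : S → ℂ) ⟨t, ht⟩ =
        ∑' l, (d k l • (Ω.shift (P.p l) G : S → ℂ) ⟨t, ht⟩) := by
      rw [h4]
      exact h5
    rw [h6, div_eq_mul_inv, ← tsum_mul_right]
    refine tsum_congr fun l => ?_
    have h7 := shift_apply Ω (P.p l) G ⟨t, ht⟩
    change _ = toF Ω G (t - (P.p l).1) at h7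
    rw [← h7, smul_eq_mul, div_eq_mul_inv, mul_assoc]
  · rw [toF_nonpos Ω _ (not_lt.1 ht)]
    have : ∀ l, d k l * toF Ω G (t - (P.p l).1) = 0 := by
      intro l
      rw [toF_nonpos Ω G (by have := (P.p l).2; linarith), mul_zero]
    simp only [this, tsum_zero]

/-! ### choice of the sequence -/

lemma geom_W (J : ℕ) : (10 : ℝ) ^ (6 * J) ≤
    1 + ∑ i ∈ Finset.range J, (10 : ℝ) ^ (6 * (i + 1)) := by
  rcases J with _ | m
  · simp
  · rw [Finset.sum_range_succ]
    have : 0 ≤ ∑ i ∈ Finset.range m, (10 : ℝ) ^ (6 * (i + 1)) :=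
      Finset.sum_nonneg fun _ _ => by positivity
    linarith

lemma exists_seq (a : S → ℝ) (ha0 : ∀ q, 0 ≤ a q) (ha : Summable a) (σ : S → S) :
    ∃ P : Sq, Summable fun q => a q * P.W (σ q) := by
  classical
  -- thresholds
  have h1 : ∀ j : ℕ, ∃ t : S, ∀ G : Finset S, (∀ q ∈ G, (σ q).1 ≤ 2 * t.1) →
      ∑ q ∈ G, a q ≤ (1 / 10 : ℝ) ^ (6 * (j + 1)) * (1 / 2) ^ j := by
    intro j
    have hε : (0 : ℝ) < (1 / 10 : ℝ) ^ (6 * (j + 1)) * (1 / 2) ^ j := by positivity
    obtain ⟨F, hF⟩ := (summable_iff_vanishing_norm.1 ha) _ hε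
    have h2 : ∃ t : S, ∀ q ∈ F, 2 * t.1 < (σ q).1 := by
      clear hF
      induction F using Finset.induction_on with
      | empty => exact ⟨⟨1, one_pos⟩, by simp⟩
      | insert q F _ ih =>
        obtain ⟨t, ht⟩ := ih
        refine ⟨⟨min t.1 ((σ q).1 / 4), lt_min t.2 (by have := (σ q).2; linarith)⟩, ?_⟩
        intro q' hq'
        rcases Finset.mem_insert.1 hq' with rfl | hq'
        · have := min_le_right t.1 ((σ q').1 / 4)
          have := (σ q').2
          change 2 * min t.1 ((σ q').1 / 4) < (σ q').1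
          linarith
        · have := min_le_left t.1 ((σ q).1 / 4)
          have := ht q' hq'
          change 2 * min t.1 ((σ q).1 / 4) < (σ q').1
          linarith
    obtain ⟨t, ht⟩ := h2
    refine ⟨t, fun G hG => ?_⟩
    have hdis : Disjoint G F := by
      rw [Finset.disjoint_left]
      intro q hq hqF
      exact absurd (ht q hqF) (not_lt.2 (hG q hq))
    have := hF G hdis
    rw [Real.norm_eq_abs] at this
    exact (le_abs_self _).trans this.le
  choose t ht using h1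
  let p : ℕ → S := fun n => Nat.rec (t 0)
    (fun j x => ⟨min (x.1 / 2) (t (j + 1)).1, lt_min (half_pos x.2) (t (j + 1)).2⟩) n
  have hp0 : p 0 = t 0 := rfl
  have hps : ∀ j, (p (j + 1)).1 = min ((p j).1 / 2) (t (j + 1)).1 := fun j => rfl
  have hpt : ∀ j, (p j).1 ≤ (t j).1 := by
    intro j
    rcases j with _ | j
    · rw [hp0]
    · rw [hps]; exact min_le_right _ _
  have hhalf : ∀ j, 2 * (p (j + 1)).1 ≤ (p j).1 := by
    intro j
    rw [hps]
    have := min_le_left ((p j).1 / 2) (t (j + 1)).1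
    linarith
  have hpow : ∀ j, (p j).1 * 2 ^ j ≤ (p 0).1 := by
    intro j
    induction j with
    | zero => simp
    | succ j ih =>
      refine le_trans ?_ ih
      rw [pow_succ]
      have h3 := hhalf j
      have h4 : (0 : ℚ) < 2 ^ j := by positivity
      nlinarith
  have hsmall : ∀ s : S, ∃ j, 2 * (p j).1 < s.1 := by
    intro s
    obtain ⟨j, hj⟩ := pow_unbounded_of_one_lt (2 * (p 0).1 / s.1) (one_lt_two : (1 : ℚ) < 2)
    refine ⟨j, ?_⟩
    rw [div_lt_iff₀ s.2] at hj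
    have h3 := hpow j
    have h4 : (0 : ℚ) < 2 ^ j := by positivity
    by_contra hn
    rw [not_lt] at hn
    nlinarith
  refine ⟨⟨p, hhalf, hsmall⟩, ?_⟩
  set P : Sq := ⟨p, hhalf, hsmall⟩ with hP
  refine summable_of_sum_le (fun q => mul_nonneg (ha0 q) (P.W_pos _).le) (c := ∑' q, a q + 2)
    (fun G => ?_)
  have h5 : ∀ q ∈ G, a q * P.W (σ q) ≤ a q +
      ∑ i ∈ Finset.range (P.J (σ q)), a q * (10 : ℝ) ^ (6 * (i + 1)) := by
    intro q _
    rw [← Finset.mul_sum]
    have := mul_le_mul_of_nonneg_left (geom_W (P.J (σ q))) (ha0 q)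
    unfold Sq.W
    linarith
  refine (Finset.sum_le_sum h5).trans ?_
  rw [Finset.sum_add_distrib]
  refine add_le_add (ha.sum_le_tsum G (fun q _ => ha0 q)) ?_
  -- swap
  obtain ⟨N, hN⟩ : ∃ N, ∀ q ∈ G, P.J (σ q) ≤ N :=
    ⟨G.sup fun q => P.J (σ q), fun q hq => Finset.le_sup (f := fun q => P.J (σ q)) hq⟩
  have h6 : ∀ q ∈ G, ∑ i ∈ Finset.range (P.J (σ q)), a q * (10 : ℝ) ^ (6 * (i + 1)) =
      ∑ i ∈ Finset.range N, if i < P.J (σ q) then a q * (10 : ℝ) ^ (6 * (i + 1)) else 0 := by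
    intro q hq
    rw [← Finset.sum_filter]
    congr 1
    ext i
    simp only [Finset.mem_range, Finset.mem_filter]
    have := hN q hq
    omega
  rw [Finset.sum_congr rfl h6, Finset.sum_comm]
  have h7 : ∀ i ∈ Finset.range N, (∑ q ∈ G, if i < P.J (σ q) then a q * (10 : ℝ) ^ (6 * (i + 1))
      else 0) ≤ (1 / 2) ^ i := by
    intro i _
    rw [← Finset.sum_filter, ← Finset.sum_mul]
    have h8 := ht i (G.filter fun q => i < P.J (σ q)) (by
      intro q hq
      rw [Finset.mem_filter] at hq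
      by_contra hn
      rw [not_le] at hn
      have h9 : 2 * (P.p i).1 < (σ q).1 := lt_of_le_of_lt (by
        have := hpt i
        change 2 * (p i).1 ≤ 2 * (t i).1
        linarith) hn
      have := P.J_le h9
      omega)
    calc (∑ q ∈ G with i < P.J (σ q), a q) * (10 : ℝ) ^ (6 * (i + 1))
        ≤ (1 / 10 : ℝ) ^ (6 * (i + 1)) * (1 / 2) ^ i * (10 : ℝ) ^ (6 * (i + 1)) := by
          gcongr
      _ = (1 / 2) ^ i := by
          rw [mul_right_comm, ← mul_pow]
          norm_num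
  refine (Finset.sum_le_sum h7).trans ?_
  have h8 := (summable_geometric_of_lt_one (r := (1 / 2 : ℝ)) (by norm_num) (by norm_num)).sum_le_tsum
    (Finset.range N) (fun i _ => by positivity)
  rw [tsum_geometric_of_lt_one (by norm_num) (by norm_num)] at h8
  norm_num at h8 ⊢
  exact h8

/-- Every element of `ℓ¹(ℚ⁺, ω)` is a sum of four products, for every non-increasing weight
`ω ≤ 1` for which there is a constant `C` such that every `q` has some `s < q` with
`ω (q - s) ≤ C ω q`. -/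
theorem exists_four (ω : ℚ → ℝ) (hpos : ∀ t, 0 < t → 0 < ω t)
    (hanti : ∀ s t, 0 < s → s ≤ t → ω t ≤ ω s) (h1 : ∀ t, 0 < t → ω t ≤ 1) (C : ℝ)
    (hC : ∀ q, 0 < q → ∃ s, 0 < s ∧ s < q ∧ ω (q - s) ≤ C * ω q) (f : ℚ → ℂ) (hf : Mem ω f) :
    ∃ g h : Fin 4 → ℚ → ℂ, (∀ i, Mem ω (g i) ∧ Mem ω (h i)) ∧
      ∀ t, f t = ∑ i, conv (g i) (h i) t := by
  classical
  let Ω : Wt := ⟨fun s => ω s.1, fun s => hpos _ s.2, fun s t hst => hanti _ _ s.2 hst,
    fun s => h1 _ s.2⟩
  have hΩ : ∀ s : S, Ω.w s = ω s.1 := fun s => rfl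
  choose σ hσ0 hσ1 hσ2 using hC
  let sg : S → S := fun q => ⟨σ q.1 q.2, hσ0 _ _⟩
  let rr : S → S := fun q => ⟨q.1 - σ q.1 q.2, by linarith [hσ1 q.1 q.2]⟩
  have hrs : ∀ q, rr q + sg q = q := by
    intro q
    apply Subtype.ext
    change q.1 - σ q.1 q.2 + σ q.1 q.2 = q.1
    ring
  have hrw : ∀ q, Ω.w (rr q) ≤ C * Ω.w q := fun q => hσ2 q.1 q.2
  have hfs : Summable fun q : S => ‖f q.1‖ * Ω.w q := by
    have := hf.2.comp_injective (Subtype.val_injective : Function.Injective (Subtype.val : S → ℚ))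
    exact this
  have hC0 : 0 ≤ C := by
    have h2 := hrw ⟨1, one_pos⟩
    have h3 := Ω.pos (rr ⟨1, one_pos⟩)
    have h4 := Ω.pos (⟨1, one_pos⟩ : S)
    by_contra hn
    rw [not_le] at hn
    nlinarith
  obtain ⟨P, hP⟩ := exists_seq (fun q : S => C * (‖f q.1‖ * Ω.w q))
    (fun q => mul_nonneg hC0 (mul_nonneg (norm_nonneg _) (Ω.pos q).le)) (hfs.mul_left C) sg
  have hsum : Summable fun q : S => f q.1 • D Ω P (rr q) (sg q) := by
    refine Summable.of_norm (Summable.of_nonneg_of_le (fun _ => norm_nonneg _) (fun q => ?_) hP)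
    rw [norm_smul, norm_D]
    have h2 := hrw q
    have h3 := (P.W_pos (sg q)).le
    calc ‖f q.1‖ * (Ω.w (rr q) * P.W (sg q)) ≤ ‖f q.1‖ * ((C * Ω.w q) * P.W (sg q)) := by
          gcongr
      _ = _ := by ring
  obtain ⟨ι, hι⟩ := exists_iota Ω P
  let F : L (S × S) := ∑' q : S, f q.1 • D Ω P (rr q) (sg q)
  obtain ⟨G, hG⟩ := four_products Ω P F hι
  have hιF : toF Ω (ι F) = f := by
    funext t
    by_cases ht : 0 < t
    · have h2 := toF_pos Ω (ι F) ⟨t, ht⟩
      rw [h2]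
      have h3 : ι F = ∑' q : S, f q.1 • Ω.e q := by
        rw [ι.map_tsum hsum]
        refine tsum_congr fun q => ?_
        rw [map_smul, hι, hrs]
      have hsum2 : Summable fun q : S => f q.1 • Ω.e q := by
        refine Summable.of_norm (hfs.congr fun q => ?_)
        rw [norm_smul, norm_bas Ω.pos]
      have h4 := (lp.evalCLM ℂ (fun _ : S => ℂ) 1 ⟨t, ht⟩).map_tsum hsum2
      have h5 : (ι F : S → ℂ) ⟨t, ht⟩ = ∑' q : S, f q.1 • (Ω.e q : S → ℂ) ⟨t, ht⟩ := by
        rw [h3]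
        exact h4
      rw [h5, tsum_eq_single (⟨t, ht⟩ : S)]
      · rw [bas_apply, if_pos rfl, smul_eq_mul, mul_div_assoc, div_self, mul_one]
        exact Complex.ofReal_ne_zero.mpr (Ω.pos _).ne'
      · intro q hq
        rw [bas_apply, if_neg (Ne.symm hq), smul_zero]
    · rw [toF_nonpos Ω _ (not_lt.1 ht), hf.1 t (not_lt.1 ht)]
  refine ⟨fun i => toF Ω (xv Ω P i), fun i => toF Ω (G i), fun i => ⟨mem_toF Ω hΩ _,
    mem_toF Ω hΩ _⟩, fun t => ?_⟩
  have h6 : f t = toF Ω (∑ k ∈ Finset.range 4, X Ω P k (G k)) t := by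
    rw [← hG, hιF]
  rw [h6]
  simp only [conv_xv]
  by_cases ht : 0 < t
  · have h7 : ∀ A : L S, toF Ω A t = A ⟨t, ht⟩ / (Ω.w ⟨t, ht⟩ : ℂ) :=
      fun A => toF_pos Ω A ⟨t, ht⟩
    simp only [h7]
    rw [← Finset.sum_div, Fin.sum_univ_eq_sum_range (fun k => (X Ω P k (G k) : S → ℂ) ⟨t, ht⟩) 4]
    congr 1
  · simp only [toF_nonpos Ω _ (not_lt.1 ht), Finset.sum_const_zero]

end Pool.Agent.H653R2.QFactor
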