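import Mathlib
import Pool.Agent.Helper290.Ultra

set_option autoImplicit false

namespace Pool.Agent.H653R2.Quot

open Set Filter

/-- a fixed bijection -/
noncomputable def e : ℤ ≃ ℕ × ℕ := (Denumerable.eqv ℤ).trans (Denumerable.eqv (ℕ × ℕ)).symm

/-- the sections of a set of integers, seen as a subset of the product -/
def sec (A : Set ℤ) (n : ℕ) : Set ℕ := {m | e.symm (n, m) ∈ A}

/-- the set with given sections -/
def mk (S : ℕ → Set ℕ) : Set ℤ := {z | (e z).2 ∈ S (e z).1}

theorem sec_mk (S : ℕ → Set ℕ) (n : ℕ) : sec (mk S) n = S n := by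
  ext m; simp [sec, mk]

theorem sec_diff (A B : Set ℤ) (n : ℕ) : sec (A \ B) n = sec A n \ sec B n := rfl

theorem sec_mono {A B : Set ℤ} (h : A ⊆ B) (n : ℕ) : sec A n ⊆ sec B n := fun _ hm => h hm

variable (x p q : Ultrafilter ℕ)

/-- the ideal attached to an ultrafilter -/
def idl : Order.Ideal (Set ℤ) where
  carrier := {A | (∀ n, sec A n ∉ x) ∧ {n | (sec A n).Finite} ∈ p}
  lower' := by
    rintro A B hBA ⟨h1, h2⟩
    refine ⟨fun n hn => h1 n (mem_of_superset hn (sec_mono hBA n)), ?_⟩
    exact mem_of_superset h2 (fun n hn => Set.Finite.subset hn (sec_mono hBA n))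
  nonempty' := ⟨∅, fun n => by simp [sec], by simp [sec]; exact Filter.univ_mem⟩
  directed' := by
    rintro A ⟨h1, h2⟩ B ⟨h3, h4⟩
    refine ⟨A ∪ B, ⟨fun n => ?_, ?_⟩, subset_union_left, subset_union_right⟩
    · change sec A n ∪ sec B n ∉ x
      rw [Ultrafilter.union_mem_iff]
      exact not_or.2 ⟨h1 n, h3 n⟩
    · filter_upwards [h2, h4] with n h5 h6
      exact Set.Finite.union h5 h6

theorem mem_idl (A : Set ℤ) :
    A ∈ idl x p ↔ (∀ n, sec A n ∉ x) ∧ {n | (sec A n).Finite} ∈ p := Iff.rfl

/-- the order of the quotient -/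
def le (I : Order.Ideal (Set ℤ)) (A B : Set ℤ) : Prop := A \ B ∈ I

theorem union_mem' {I : Order.Ideal (Set ℤ)} {A B : Set ℤ} (hA : A ∈ I) (hB : B ∈ I) : A ∪ B ∈ I :=
  Order.Ideal.sup_mem hA hB

theorem sub_mem' {I : Order.Ideal (Set ℤ)} {A B : Set ℤ} (hA : A ⊆ B) (hB : B ∈ I) : A ∈ I :=
  I.lower hA hB

theorem le_refl' (I : Order.Ideal (Set ℤ)) (A : Set ℤ) : le I A A := by
  unfold le
  rw [Set.sdiff_self]
  exact I.bot_mem

theorem le_trans' {I : Order.Ideal (Set ℤ)} {A B C : Set ℤ} (h1 : le I A B) (h2 : le I B C) :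
    le I A C := by
  refine sub_mem' ?_ (union_mem' h1 h2)
  intro z hz
  by_cases hB : z ∈ B
  · exact Or.inr ⟨hB, hz.2⟩
  · exact Or.inl ⟨hz.1, hB⟩

/-- the columns -/
def col (n : ℕ) : Set ℤ := {z | (e z).1 = n}

theorem sec_col_self (n : ℕ) : sec (col n) n = Set.univ := by
  ext m; simp [sec, col]

theorem sec_col_ne {n k : ℕ} (h : k ≠ n) : sec (col n) k = ∅ := by
  ext m; simp [sec, col, h]

def Bot (I : Order.Ideal (Set ℤ)) (A : Set ℤ) : Prop := ∀ C, le I A C

def Atom (I : Order.Ideal (Set ℤ)) (A : Set ℤ) : Prop :=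
  ¬ Bot I A ∧ ∀ B, le I B A → Bot I B ∨ le I A B

theorem bot_iff (I : Order.Ideal (Set ℤ)) (A : Set ℤ) : Bot I A ↔ A ∈ I := by
  constructor
  · intro h
    have := h ∅
    unfold le at this
    rwa [Set.sdiff_empty] at this
  · intro h C
    exact sub_mem' Set.sdiff_subset h

/-- an infinite set splits in two infinite parts -/
theorem split (A : Set ℕ) : ∃ B ⊆ A, A.Infinite → B.Infinite ∧ (A \ B).Infinite := by
  classical
  by_cases hA : A.Infinite
  · haveI := hA.to_subtype
    let ι := Nat.orderEmbeddingOfSet A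
    have hι : ∀ n, ι n ∈ A := by
      intro n
      have := Nat.orderEmbeddingOfSet_range A
      rw [← this]
      exact ⟨n, rfl⟩
    refine ⟨Set.range (fun n => ι (2 * n)), ?_, fun _ => ⟨?_, ?_⟩⟩
    · rintro _ ⟨n, rfl⟩
      exact hι _
    · apply Set.infinite_range_of_injective
      intro a b hab
      have := ι.injective hab
      omega
    · refine Set.Infinite.mono ?_ (Set.infinite_range_of_injective (f := fun n => ι (2 * n + 1)) ?_)
      · rintro _ ⟨n, rfl⟩
        refine ⟨hι _, ?_⟩
        rintro ⟨m, hm⟩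
        have := ι.injective hm
        omega
      · intro a b hab
        have := ι.injective hab
        omega
  · exact ⟨∅, Set.empty_subset _, fun h => absurd h hA⟩

theorem atom_iff (hp : ∀ n, {n} ∉ p) (A : Set ℤ) :
    Atom (idl x p) A ↔ ∃ n, le (idl x p) A (col n) ∧ le (idl x p) (col n) A := by
  have hcof : ∀ n, {m | m ≠ n} ∈ p := by
    intro n
    have := Ultrafilter.compl_mem_iff_notMem.2 (hp n)
    exact mem_of_superset this (fun m hm => hm)
  -- one column sets
  have hone : ∀ (n : ℕ) (B : Set ℤ), B ⊆ col n → sec B n ∉ x → B ∈ idl x p := by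
    intro n B hB hn
    have hempty : ∀ m, m ≠ n → sec B m = ∅ := by
      intro m hm
      exact Set.subset_empty_iff.1 ((sec_mono hB m).trans (sec_col_ne hm).le)
    refine ⟨fun m => ?_, ?_⟩
    · by_cases hm : m = n
      · rw [hm]; exact hn
      · rw [hempty m hm]; exact x.empty_notMem
    · refine mem_of_superset (hcof n) (fun m hm => ?_)
      change (sec B m).Finite
      rw [hempty m hm]; exact Set.finite_empty
  constructor
  · rintro ⟨h1, h2⟩
    rw [bot_iff] at h1
    by_cases hex : ∃ n, sec A n ∈ x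
    · obtain ⟨n, hn⟩ := hex
      refine ⟨n, ?_, ?_⟩
      · rcases h2 (A ∩ col n) (sub_mem' (by intro z hz; exact absurd hz.1.1 hz.2)
          (idl x p).bot_mem) with h3 | h3
        · exfalso
          rw [bot_iff] at h3
          apply h3.1 n
          have : sec (A ∩ col n) n = sec A n := by
            change sec A n ∩ sec (col n) n = sec A n
            rw [sec_col_self, Set.inter_univ]
          rw [this]; exact hn
        · refine sub_mem' ?_ h3
          intro z hz
          exact ⟨hz.1, fun h => hz.2 h.2⟩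
      · apply hone n _ Set.sdiff_subset
        rw [sec_diff, sec_col_self]
        intro h
        have := Ultrafilter.compl_mem_iff_notMem.1 (by rwa [Set.compl_eq_univ_sdiff] : (sec A n)ᶜ ∈ x)
        exact this hn
    · exfalso
      push Not at hex
      have h3 : {n | (sec A n).Finite} ∉ p := fun h => h1 ⟨hex, h⟩
      choose B hB1 hB2 using fun n => split (sec A n)
      have hle : le (idl x p) (mk B) A := by
        refine sub_mem' ?_ (idl x p).bot_mem
        intro z hz
        exfalso
        apply hz.2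
        have h4 : (e z).2 ∈ B (e z).1 := hz.1
        have h5 := hB1 _ h4
        simpa [sec] using h5
      rcases h2 (mk B) hle with h4 | h4
      · rw [bot_iff] at h4
        apply h3
        refine mem_of_superset h4.2 (fun n hn => ?_)
        change (sec A n).Finite
        by_contra hcon
        exact (hB2 n hcon).1 (by rw [← sec_mk B n]; exact hn)
      · apply h3
        refine mem_of_superset h4.2 (fun n hn => ?_)
        change (sec A n).Finite
        by_contra hcon
        apply (hB2 n hcon).2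
        have : (sec (A \ mk B) n).Finite := hn
        rwa [sec_diff, sec_mk] at this
  · rintro ⟨n, h1, h2⟩
    have hnA : sec A n ∈ x := by
      have := h2.1 n
      rw [sec_diff, sec_col_self, ← Set.compl_eq_univ_sdiff] at this
      exact Ultrafilter.compl_notMem_iff.1 this
    refine ⟨?_, ?_⟩
    · rw [bot_iff]
      intro h
      exact h.1 n hnA
    · intro B hB
      by_cases hBn : sec B n ∈ x
      · right
        refine le_trans' h1 ?_
        apply hone n _ Set.sdiff_subset
        rw [sec_diff, sec_col_self, ← Set.compl_eq_univ_sdiff, Ultrafilter.compl_mem_iff_notMem, not_not]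
        exact hBn
      · left
        rw [bot_iff]
        have h3 : le (idl x p) B (col n) := le_trans' hB h1
        refine sub_mem' (B := (B \ col n) ∪ (B ∩ col n)) ?_ (union_mem' h3 ?_)
        · intro z hz
          by_cases hzc : z ∈ col n
          · exact Or.inr ⟨hz, hzc⟩
          · exact Or.inl ⟨hz, hzc⟩
        · apply hone n _ Set.inter_subset_right
          intro h
          exact hBn (mem_of_superset h (sec_mono Set.inter_subset_left n))

theorem le_col_iff (hp : ∀ n, {n} ∉ p) (n : ℕ) (C : Set ℤ) :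
    le (idl x p) (col n) C ↔ sec C n ∈ x := by
  constructor
  · intro h
    have := h.1 n
    rw [sec_diff, sec_col_self, ← Set.compl_eq_univ_sdiff] at this
    exact Ultrafilter.compl_notMem_iff.1 this
  · intro h
    refine ⟨fun m => ?_, ?_⟩
    · by_cases hm : m = n
      · rw [hm, sec_diff, sec_col_self, ← Set.compl_eq_univ_sdiff, Ultrafilter.compl_mem_iff_notMem, not_not]
        exact h
      · rw [sec_diff, sec_col_ne hm, Set.empty_sdiff]; exact x.empty_notMem
    · have h1 := Ultrafilter.compl_mem_iff_notMem.2 (hp n)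
      refine mem_of_superset h1 (fun m hm => ?_)
      have hm' : m ≠ n := hm
      change (sec (col n \ C) m).Finite
      rw [sec_diff, sec_col_ne hm', Set.empty_sdiff]; exact Set.finite_empty

theorem sup_iff (hx : ∀ n, {n} ∉ x) (hp : ∀ n, {n} ∉ p) (S : Set ℕ) :
    S ∉ p ↔ ∃ B, (∀ n ∈ S, le (idl x p) (col n) B) ∧
      ∀ C, (∀ n ∈ S, le (idl x p) (col n) C) → le (idl x p) B C := by
  classical
  have hinf : ∀ A ∈ x, A.Infinite := by
    intro A hA hfin
    obtain ⟨a, ha, hax⟩ := Ultrafilter.eq_pure_of_finite_mem hfin hA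
    apply hx a
    rw [hax]
    exact Set.mem_singleton a
  constructor
  · intro hS
    refine ⟨mk (fun n => if n ∈ S then Set.univ else ∅), ?_, ?_⟩
    · intro n hn
      rw [le_col_iff x p hp, sec_mk, if_pos hn]
      exact univ_mem
    · intro C hC
      refine ⟨fun n => ?_, ?_⟩
      · rw [sec_diff, sec_mk]
        by_cases hn : n ∈ S
        · rw [if_pos hn, ← Set.compl_eq_univ_sdiff, Ultrafilter.compl_mem_iff_notMem, not_not]
          exact (le_col_iff x p hp n C).1 (hC n hn)
        · rw [if_neg hn, Set.empty_sdiff]; exact x.empty_notMem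
      · refine mem_of_superset (Ultrafilter.compl_mem_iff_notMem.2 hS) (fun n hn => ?_)
        change (sec (mk _ \ C) n).Finite
        rw [sec_diff, sec_mk, if_neg hn, Set.empty_sdiff]; exact Set.finite_empty
  · rintro ⟨B, hB1, hB2⟩ hS
    have hBx : ∀ n ∈ S, sec B n ∈ x := fun n hn => (le_col_iff x p hp n B).1 (hB1 n hn)
    -- shrink the sections
    have hsh : ∀ n, ∃ D ⊆ sec B n, n ∈ S → D ∈ x ∧ (sec B n \ D).Infinite := by
      intro n
      by_cases hn : n ∈ S
      · obtain ⟨D, hD1, hD2⟩ := split (sec B n)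
        obtain ⟨hD3, hD4⟩ := hD2 (hinf _ (hBx n hn))
        by_cases hDx : D ∈ x
        · exact ⟨D, hD1, fun _ => ⟨hDx, hD4⟩⟩
        · refine ⟨sec B n \ D, Set.sdiff_subset, fun _ => ⟨?_, ?_⟩⟩
          · exact inter_mem (hBx n hn) (Ultrafilter.compl_mem_iff_notMem.2 hDx)
          · rw [Set.sdiff_sdiff_cancel_left hD1]; exact hD3
      · exact ⟨∅, Set.empty_subset _, fun h => absurd h hn⟩
    choose D hD1 hD2 using hsh
    have h1 := hB2 (mk D) (fun n hn => by
      rw [le_col_iff x p hp, sec_mk]; exact (hD2 n hn).1)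
    have h2 := inter_mem h1.2 hS
    obtain ⟨n, hn1, hn2⟩ := Ultrafilter.nonempty_of_mem h2
    apply (hD2 n hn2).2
    have : (sec (B \ mk D) n).Finite := hn1
    rwa [sec_diff, sec_mk] at this

/-- isomorphic quotients come from equivalent ultrafilters -/
theorem main (hx : ∀ n, {n} ∉ x) (hp : ∀ n, {n} ∉ p) (hq : ∀ n, {n} ∉ q) (f : Set ℤ → Set ℤ)
    (h1 : ∀ A B : Set ℤ, symmDiff A B ∈ idl x p ↔ symmDiff (f A) (f B) ∈ idl x q)
    (h2 : ∀ C : Set ℤ, ∃ A : Set ℤ, symmDiff (f A) C ∈ idl x q)
    (h3 : ∀ A B : Set ℤ, symmDiff (f (A ∩ B)) (f A ∩ f B) ∈ idl x q) :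
    ∃ σ : Equiv.Perm ℕ, q = p.map σ := by
  have hle : ∀ A B, le (idl x p) A B ↔ le (idl x q) (f A) (f B) := by
    intro A B
    have e1 : symmDiff (A ∩ B) A = A \ B := by
      ext z; simp only [Set.mem_symmDiff, Set.mem_inter_iff, Set.mem_sdiff]; tauto
    have e2 : symmDiff (f A ∩ f B) (f A) = f A \ f B := by
      ext z; simp only [Set.mem_symmDiff, Set.mem_inter_iff, Set.mem_sdiff]; tauto
    unfold le
    rw [← e1, h1, ← e2]
    constructor
    · intro h
      refine sub_mem' ?_ (union_mem' (h3 A B) h)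
      have := symmDiff_triangle (f A ∩ f B) (f (A ∩ B)) (f A)
      rw [symmDiff_comm (f A ∩ f B) (f (A ∩ B))] at this
      exact this
    · intro h
      refine sub_mem' ?_ (union_mem' (h3 A B) h)
      exact symmDiff_triangle (f (A ∩ B)) (f A ∩ f B) (f A)
  have hsurj : ∀ C, ∃ A, le (idl x q) (f A) C ∧ le (idl x q) C (f A) := by
    intro C
    obtain ⟨A, hA⟩ := h2 C
    refine ⟨A, sub_mem' ?_ hA, sub_mem' ?_ hA⟩
    · intro z hz; exact Or.inl hz
    · intro z hz; exact Or.inr hz
  have hbot : ∀ A, Bot (idl x p) A ↔ Bot (idl x q) (f A) := by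
    intro A
    constructor
    · intro h C
      obtain ⟨C', hC', -⟩ := hsurj C
      exact le_trans' ((hle _ _).1 (h C')) hC'
    · intro h C
      exact (hle _ _).2 (h (f C))
  have hatom : ∀ A, Atom (idl x p) A ↔ Atom (idl x q) (f A) := by
    intro A
    unfold Atom
    rw [hbot A]
    refine and_congr Iff.rfl ?_
    constructor
    · intro h B hB
      obtain ⟨B', hB1, hB2⟩ := hsurj B
      rcases h B' ((hle _ _).2 (le_trans' hB1 hB)) with h4 | h4
      · left
        intro C
        exact le_trans' hB2 ((hbot _).1 h4 C)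
      · right
        exact le_trans' ((hle _ _).1 h4) hB1
    · intro h B hB
      rcases h (f B) ((hle _ _).1 hB) with h4 | h4
      · exact Or.inl ((hbot _).2 h4)
      · exact Or.inr ((hle _ _).2 h4)
  have hcolinj : ∀ (r : Ultrafilter ℕ), (∀ n, {n} ∉ r) → ∀ n m, le (idl x r) (col n) (col m) → n = m := by
    intro r hr n m h
    rw [le_col_iff x r hr] at h
    by_contra hne
    rw [sec_col_ne hne] at h
    exact x.empty_notMem h
  have hσ : ∀ n, ∃ k, le (idl x q) (f (col n)) (col k) ∧ le (idl x q) (col k) (f (col n)) := by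
    intro n
    rw [← atom_iff x q hq, ← hatom, atom_iff x p hp]
    exact ⟨n, le_refl' _ _, le_refl' _ _⟩
  choose σ hσ1 hσ2 using hσ
  have hσinj : Function.Injective σ := by
    intro n m hnm
    apply hcolinj p hp
    rw [hle]
    refine le_trans' (hσ1 n) ?_
    rw [hnm]
    exact hσ2 m
  have hσsurj : Function.Surjective σ := by
    intro k
    obtain ⟨A, hA1, hA2⟩ := hsurj (col k)
    have h4 : Atom (idl x p) A := by
      rw [hatom, atom_iff x q hq]
      exact ⟨k, hA1, hA2⟩
    rw [atom_iff x p hp] at h4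
    obtain ⟨n, h5, h6⟩ := h4
    refine ⟨n, ?_⟩
    apply hcolinj q hq
    exact le_trans' (hσ2 n) (le_trans' ((hle _ _).1 h6) hA1)
  refine ⟨Equiv.ofBijective σ ⟨hσinj, hσsurj⟩, ?_⟩
  have key : ∀ S : Set ℕ, S ∉ p ↔ σ '' S ∉ q := by
    intro S
    rw [sup_iff x p hx hp, sup_iff x q hx hq]
    constructor
    · rintro ⟨B, hB1, hB2⟩
      refine ⟨f B, ?_, ?_⟩
      · rintro _ ⟨n, hn, rfl⟩
        exact le_trans' (hσ2 n) ((hle _ _).1 (hB1 n hn))
      · intro C hC
        obtain ⟨C', hC1, hC2⟩ := hsurj C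
        refine le_trans' ((hle _ _).1 (hB2 C' ?_)) hC1
        intro n hn
        rw [hle]
        exact le_trans' (hσ1 n) (le_trans' (hC _ ⟨n, hn, rfl⟩) hC2)
    · rintro ⟨B', hB1, hB2⟩
      obtain ⟨B, hB3, hB4⟩ := hsurj B'
      refine ⟨B, ?_, ?_⟩
      · intro n hn
        rw [hle]
        exact le_trans' (hσ1 n) (le_trans' (hB1 _ ⟨n, hn, rfl⟩) hB4)
      · intro C hC
        rw [hle]
        refine le_trans' hB3 (hB2 (f C) ?_)
        rintro _ ⟨n, hn, rfl⟩
        exact le_trans' (hσ2 n) ((hle _ _).1 (hC n hn))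
  ext T
  rw [Ultrafilter.mem_map]
  have := key (σ ⁻¹' T)
  rw [Set.image_preimage_eq T hσsurj] at this
  exact (not_iff_not.1 this).symm

theorem le_card_of_fibres {X Q : Type} (h : X → Q) (κ : Cardinal) (hX : Cardinal.aleph0 ≤ Cardinal.mk X)
    (hκ : κ < Cardinal.mk X) (hfib : ∀ x, Cardinal.mk {y // h y = h x} ≤ κ) :
    Cardinal.mk X ≤ Cardinal.mk Q := by
  by_contra hcon
  push Not at hcon
  have h1 : Cardinal.mk X = Cardinal.mk (Σ q : Q, {y : X // h y = q}) :=
    Cardinal.mk_congr (Equiv.sigmaFiberEquiv h).symm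
  have h2 : Cardinal.mk (Σ q : Q, {y : X // h y = q}) ≤ Cardinal.mk Q * κ := by
    rw [Cardinal.mk_sigma]
    refine (Cardinal.sum_le_sum _ (fun _ => κ) (fun q => ?_)).trans ?_
    · by_cases hq : ∃ x, h x = q
      · obtain ⟨x, rfl⟩ := hq
        exact hfib x
      · have : IsEmpty {y : X // h y = q} := ⟨fun y => hq ⟨y.1, y.2⟩⟩
        rw [Cardinal.mk_eq_zero]
        exact bot_le
    · simp
  have h3 : Cardinal.mk Q * κ < Cardinal.mk X := Cardinal.mul_lt_of_lt hX hcon hκ
  exact absurd (h1.le.trans h2) (not_le.mpr h3)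

end Pool.Agent.H653R2.Quot
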