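import Mathlib

set_option autoImplicit false

namespace Pool.Agent.H653R2.Selectors

open Cardinal Set

section Basic

variable {W : Type} [LinearOrder W]

theorem small_Iic (hsmall : ∀ w : W, #(Set (Set.Iio w)) ≤ 𝔠) (w : W) :
    #(Set (Set.Iic w)) ≤ 𝔠 := by
  rw [mk_set]
  have h1 : #(Set.Iic w) ≤ #(Set.Iio w) + 1 := by
    have : Set.Iic w = insert w (Set.Iio w) := by
      ext x; simp [le_iff_lt_or_eq, or_comm]
    rw [this]
    exact mk_insert_le
  calc (2:Cardinal) ^ #(Set.Iic w) ≤ 2 ^ (#(Set.Iio w) + 1) :=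
        power_le_power_left two_ne_zero h1
    _ = 2 ^ #(Set.Iio w) * 2 := by rw [power_add, power_one]
    _ ≤ 𝔠 * 2 := by
        gcongr
        rw [← mk_set]; exact hsmall w
    _ ≤ 𝔠 := by
        have : (𝔠 : Cardinal) * 2 = 𝔠 := by
          exact_mod_cast mul_eq_left (aleph0_le_continuum) ((nat_lt_continuum 2).le) two_ne_zero
        exact this.le

theorem pow_le_cont {ι : Type} (hι : #(Set ι) ≤ 𝔠) : (𝔠 : Cardinal) ^ #ι ≤ 𝔠 := by
  rw [mk_set] at hι
  rw [← two_power_aleph0, ← power_mul]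
  by_cases h : Infinite ι
  · have h1 : ℵ₀ * #ι = #ι := aleph0_mul_eq (aleph0_le_mk ι)
    rw [h1, two_power_aleph0]
    exact hι
  · have h2 : Finite ι := not_infinite_iff_finite.1 h
    have h3 : #ι ≤ ℵ₀ := (lt_aleph0_of_finite ι).le
    calc (2:Cardinal) ^ (ℵ₀ * #ι) ≤ 2 ^ (ℵ₀ * ℵ₀) := by
          apply power_le_power_left two_ne_zero
          gcongr
      _ = 2 ^ ℵ₀ := by rw [aleph0_mul_aleph0]

/-- families indexed by small types are bounded -/
theorem bdd_of_small (hbig : 𝔠 < #(Set W)) (hsmall : ∀ w : W, #(Set (Set.Iio w)) ≤ 𝔠)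
    {ι : Type} (hι : #(Set ι) ≤ 𝔠) (f : ι → W) : ∃ w, ∀ i, f i < w := by
  by_contra hcon
  push Not at hcon
  have hinj : Function.Injective
      (fun (A : Set W) (i : ι) => ((fun x : Set.Iic (f i) => (x : W)) ⁻¹' A : Set (Set.Iic (f i)))) := by
    intro A B hAB
    ext x
    obtain ⟨i, hi⟩ := hcon x
    have := congrFun hAB i
    have h2 : (⟨x, hi⟩ : Set.Iic (f i)) ∈ (fun x : Set.Iic (f i) => (x : W)) ⁻¹' A ↔
      (⟨x, hi⟩ : Set.Iic (f i)) ∈ (fun x : Set.Iic (f i) => (x : W)) ⁻¹' B := by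
      simp only at this
      rw [this]
    simpa using h2
  have h1 := mk_le_of_injective hinj
  rw [mk_pi] at h1
  have h2 : Cardinal.prod (fun i => #(Set (Set.Iic (f i)))) ≤ 𝔠 ^ #ι := by
    calc Cardinal.prod (fun i => #(Set (Set.Iic (f i)))) ≤ Cardinal.prod (fun _ : ι => (𝔠 : Cardinal)) :=
          prod_le_prod _ _ (fun i => small_Iic hsmall (f i))
      _ = 𝔠 ^ #ι := by rw [prod_const]; simp
  exact absurd (h1.trans (h2.trans (pow_le_cont hι))) (not_le.2 hbig)

/-- the ideal -/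
def J (W : Type) [LinearOrder W] : Set (Set W) :=
  {S | ∃ g : W → WithBot W, (∀ s ∈ S, g s < (s : WithBot W)) ∧
    ∀ v : W, ∃ c : W, ∀ s ∈ S, g s ≤ (v : WithBot W) → s < c}

theorem J_mono {A B : Set W} (hAB : A ⊆ B) (hB : B ∈ J W) : A ∈ J W := by
  obtain ⟨g, h1, h2⟩ := hB
  refine ⟨g, fun s hs => h1 s (hAB hs), fun v => ?_⟩
  obtain ⟨c, hc⟩ := h2 v
  exact ⟨c, fun s hs => hc s (hAB hs)⟩

theorem set_nat_le : #(Set ℕ) ≤ 𝔠 := by
  rw [mk_set]; simp

theorem J_iUnion (hbig : 𝔠 < #(Set W)) (hsmall : ∀ w : W, #(Set (Set.Iio w)) ≤ 𝔠)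
    (A : ℕ → Set W) (hA : ∀ n, A n ∈ J W) : (⋃ n, A n) ∈ J W := by
  classical
  choose g hg1 hg2 using hA
  have hex : ∀ s ∈ ⋃ n, A n, ∃ n, s ∈ A n := fun s hs => by simpa using hs
  refine ⟨fun s => if h : ∃ n, s ∈ A n then g (Nat.find h) s else ⊥, ?_, ?_⟩
  · intro s hs
    have h := hex s hs
    simp only [dif_pos h]
    exact hg1 _ s (Nat.find_spec h)
  · intro v
    choose c hc using hg2
    obtain ⟨w, hw⟩ := bdd_of_small hbig hsmall set_nat_le (fun n => c n v)
    refine ⟨w, fun s hs h2 => ?_⟩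
    have h := hex s hs
    simp only [dif_pos h] at h2
    exact (hc _ v s (Nat.find_spec h) h2).trans (hw _)

theorem J_normal (hbig : 𝔠 < #(Set W)) (hsmall : ∀ w : W, #(Set (Set.Iio w)) ≤ 𝔠)
    (A : W → Set W) (hA : ∀ v, A v ∈ J W) (S : Set W) (h : W → W)
    (hS : ∀ s ∈ S, h s < s ∧ s ∈ A (h s)) : S ∈ J W := by
  choose g hg1 hg2 using hA
  refine ⟨fun s => max (h s : WithBot W) (g (h s) s), ?_, ?_⟩
  · intro s hs
    rw [max_lt_iff]
    exact ⟨WithBot.coe_lt_coe.2 (hS s hs).1, hg1 _ s (hS s hs).2⟩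
  · intro v
    choose c hc using hg2
    obtain ⟨w, hw⟩ := bdd_of_small hbig hsmall (small_Iic hsmall v)
      (fun u : Set.Iic v => c u v)
    refine ⟨w, fun s hs h2 => ?_⟩
    rw [max_le_iff] at h2
    have h3 : h s ≤ v := WithBot.coe_le_coe.1 h2.1
    exact (hc (h s) v s (hS s hs).2 h2.2).trans (hw ⟨h s, h3⟩)

/-- points of countable character -/
def E (W : Type) [LinearOrder W] : Set W :=
  {s | ∃ a : ℕ → W, (∀ n, a n < s) ∧ ∀ t < s, ∃ n, t ≤ a n}

theorem tail_not_J [WellFoundedLT W] (hbig : 𝔠 < #(Set W))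
    (hsmall : ∀ w : W, #(Set (Set.Iio w)) ≤ 𝔠) (c : W) :
    {s ∈ E W | c < s} ∉ J W := by
  rintro ⟨g, h1, h2⟩
  choose d hd using h2
  have hnomax : ∀ w : W, ∃ w', w < w' := by
    intro w
    obtain ⟨w', hw'⟩ := bdd_of_small hbig hsmall (ι := Unit)
      (by rw [mk_set]; simpa using (nat_lt_continuum 2).le) (fun _ => w)
    exact ⟨w', hw' ()⟩
  choose nx hnx using hnomax
  -- the sequence
  let δ : ℕ → W := fun n => Nat.rec (nx c) (fun _ x => max (nx x) (d x)) n
  have hδs : ∀ n, δ (n+1) = max (nx (δ n)) (d (δ n)) := fun n => rfl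
  have hδlt : ∀ n, δ n < δ (n+1) := fun n => by
    rw [hδs]
    exact lt_of_lt_of_le (hnx _) (le_max_left _ _)
  have hδ0 : c < δ 0 := hnx c
  obtain ⟨w, hw⟩ := bdd_of_small hbig hsmall set_nat_le δ
  -- least upper bound
  have hne : {x : W | ∀ n, δ n < x}.Nonempty := ⟨w, hw⟩
  let s := WellFounded.min (wellFounded_lt (α := W)) _ hne
  have hs1 : ∀ n, δ n < s := WellFounded.min_mem (wellFounded_lt (α := W)) _ hne
  have hs2 : ∀ t < s, ∃ n, t ≤ δ n := by
    intro t ht
    by_contra hcon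
    push Not at hcon
    exact (WellFounded.not_lt_min (wellFounded_lt (α := W)) {x : W | ∀ n, δ n < x} hcon) ht
  have hsE : s ∈ {s ∈ E W | c < s} := ⟨⟨δ, hs1, hs2⟩, hδ0.trans (hs1 0)⟩
  have h3 := h1 s hsE
  have h4 : ∃ n : ℕ, g s ≤ WithBot.some (δ n) := by
    induction hgs : g s using WithBot.recBotCoe with
    | bot => exact ⟨0, bot_le⟩
    | coe t =>
      rw [hgs] at h3
      obtain ⟨n, hn⟩ := hs2 t (WithBot.coe_lt_coe.1 h3)
      exact ⟨n, WithBot.coe_le_coe.2 hn⟩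
  obtain ⟨n, hn⟩ := h4
  have h5 := hd (δ n) s hsE hn
  have h6 : d (δ n) ≤ δ (n+1) := by rw [hδs]; exact le_max_right _ _
  exact absurd (h5.trans_le h6) (not_lt.2 (hs1 (n+1)).le)

/-- a large family of disjoint positive sets -/
theorem exists_split [WellFoundedLT W] (hbig : 𝔠 < #(Set W))
    (hsmall : ∀ w : W, #(Set (Set.Iio w)) ≤ 𝔠) :
    ∃ (h : W → W) (D : Set W), 𝔠 < #(Set {v : W | {s ∈ D | h s = v} ∉ J W}) := by
  classical
  have hE : ∀ s : W, ∃ a : ℕ → W, s ∈ E W → (∀ n, a n < s) ∧ ∀ t < s, ∃ n, t ≤ a n := by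
    intro s
    by_cases hs : s ∈ E W
    · obtain ⟨a, ha⟩ := hs
      exact ⟨a, fun _ => ha⟩
    · exact ⟨fun _ => s, fun h => absurd h hs⟩
  choose a ha using hE
  by_contra hcon
  push Not at hcon
  have hb : ∀ n : ℕ, ∃ w : W, ∀ v : W, {s ∈ E W | a s n = v} ∉ J W → v < w := by
    intro n
    have h1 := hcon (fun s => a s n) (E W)
    obtain ⟨w, hw⟩ := bdd_of_small hbig hsmall h1 (fun v => (v : W))
    exact ⟨w, fun v hv => hw ⟨v, hv⟩⟩
  choose b hb using hb
  obtain ⟨c, hc⟩ := bdd_of_small hbig hsmall set_nat_le b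
  apply tail_not_J hbig hsmall c
  -- use normality
  let A : W → Set W := fun v => if c ≤ v then ⋃ n, {s ∈ E W | a s n = v} else ∅
  have hA : ∀ v, A v ∈ J W := by
    intro v
    by_cases hv : c ≤ v
    · simp only [A, if_pos hv]
      apply J_iUnion hbig hsmall
      intro n
      by_contra hcon2
      have := hb n v hcon2
      exact absurd ((this.trans (hc n)).trans_le hv) (lt_irrefl _)
    · simp only [A, if_neg hv]
      exact ⟨fun _ => ⊥, by simp, fun v => ⟨v, by simp⟩⟩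
  have hn : ∀ s ∈ {s ∈ E W | c < s}, ∃ n, c ≤ a s n := fun s hs => (ha s hs.1).2 c hs.2
  refine J_normal hbig hsmall A hA _
    (fun s => if h : ∃ n, c ≤ a s n then a s (Nat.find h) else s) ?_
  intro s hs
  have h := hn s hs
  simp only [dif_pos h]
  refine ⟨(ha s hs.1).1 _, ?_⟩
  simp only [A, if_pos (Nat.find_spec h)]
  exact Set.mem_iUnion.2 ⟨Nat.find h, hs.1, rfl⟩

/-- few sets do not represent all sets modulo the ideal -/
theorem exists_not_rep [WellFoundedLT W] (hbig : 𝔠 < #(Set W))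
    (hsmall : ∀ w : W, #(Set (Set.Iio w)) ≤ 𝔠) (B : Set (Set W)) (hB : #B ≤ 𝔠) :
    ∃ X : Set W, ∀ Y ∈ B, symmDiff X Y ∉ J W := by
  obtain ⟨h, D, hV⟩ := exists_split hbig hsmall
  by_contra hcon
  push Not at hcon
  set V : Set W := {v : W | {s ∈ D | h s = v} ∉ J W} with hVdef
  let X : Set V → Set W := fun T => {s ∈ D | ∃ hv : h s ∈ V, (⟨h s, hv⟩ : V) ∈ T}
  choose F hFB hFJ using fun T : Set V => hcon (X T)
  have hinj : Function.Injective (fun T : Set V => (⟨F T, hFB T⟩ : B)) := by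
    intro T T' hTT
    have hFF : F T = F T' := congrArg Subtype.val hTT
    have hdiff : symmDiff (X T) (X T') ∈ J W := by
      have h1 : symmDiff (X T) (X T') ⊆ ⋃ n : ℕ, (if n = 0 then symmDiff (X T) (F T) else symmDiff (X T') (F T')) := by
        have := symmDiff_triangle (X T) (F T) (X T')
        intro x hx
        have hx2 := this hx
        rcases hx2 with hx2 | hx2
        · exact Set.mem_iUnion.2 ⟨0, by simpa using hx2⟩
        · refine Set.mem_iUnion.2 ⟨1, ?_⟩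
          rw [hFF, symmDiff_comm] at hx2
          simpa using hx2
      refine J_mono h1 (J_iUnion hbig hsmall _ ?_)
      intro n
      by_cases hn : n = 0
      · simp only [hn, if_true]; exact hFJ T
      · simp only [hn, if_false]; exact hFJ T'
    have key : ∀ v : V, (v ∈ T ↔ v ∈ T') := by
      intro v
      by_contra hne
      apply v.2
      refine J_mono ?_ hdiff
      rintro s ⟨hsD, hsv⟩
      have hmem : ∀ U : Set V, s ∈ X U ↔ v ∈ U := by
        intro U
        constructor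
        · rintro ⟨_, hv, hU⟩
          have : (⟨h s, hv⟩ : V) = v := Subtype.ext hsv
          rwa [this] at hU
        · intro hU
          have hv : h s ∈ V := by rw [hsv]; exact v.2
          refine ⟨hsD, hv, ?_⟩
          have : (⟨h s, hv⟩ : V) = v := Subtype.ext hsv
          rwa [this]
      rw [Set.mem_symmDiff, hmem T, hmem T']
      tauto
    ext v
    exact key v
  have := mk_le_of_injective hinj
  exact absurd (this.trans hB) (not_le.2 hV)

/-- selectors in the ideal -/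
theorem exists_selector [WellFoundedLT W] (hbig : 𝔠 < #(Set W))
    (hsmall : ∀ w : W, #(Set (Set.Iio w)) ≤ 𝔠) (P : Set (Set W))
    (hdis : P.PairwiseDisjoint id) (h2 : ∀ p ∈ P, ∃ x ∈ p, ∃ y ∈ p, x ≠ y) :
    ∃ S ∈ J W, (∀ p ∈ P, ∃! x, x ∈ p ∧ x ∈ S) ∧ S ⊆ ⋃₀ P := by
  classical
  have hWne : Nonempty W := by
    by_contra hemp
    rw [not_nonempty_iff] at hemp
    have : #(Set W) = 1 := by rw [mk_set, mk_eq_zero, power_zero]
    rw [this] at hbig
    exact absurd hbig (not_lt.2 (one_le_aleph0.trans aleph0_le_continuum))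
  have h3 : ∀ p ∈ P, ∃ m ∈ p, ∃ y ∈ p, m < y := by
    intro p hp
    obtain ⟨x, hx, y, hy, hxy⟩ := h2 p hp
    rcases lt_or_gt_of_ne hxy with h | h
    · exact ⟨x, hx, y, hy, h⟩
    · exact ⟨y, hy, x, hx, h⟩
  choose! m hm y hy hmy using h3
  have huniq : ∀ p ∈ P, ∀ q ∈ P, ∀ x, x ∈ p → x ∈ q → p = q := by
    intro p hp q hq x hxp hxq
    by_contra hne
    exact Set.disjoint_left.1 (hdis hp hq hne) hxp hxq
  refine ⟨{s | ∃ p ∈ P, s = y p}, ?_, ?_, ?_⟩
  · have hsel : ∀ s ∈ {s | ∃ p ∈ P, s = y p}, ∃ p ∈ P, s = y p := fun s hs => hs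
    choose! q hq hq2 using hsel
    have hy1 : ∀ p ∈ P, q (y p) = p := by
      intro p hp
      have h4 := hq (y p) ⟨p, hp, rfl⟩
      have h5 := hq2 (y p) ⟨p, hp, rfl⟩
      have h6 : y p ∈ q (y p) := by
        have := hy _ h4
        rwa [← h5] at this
      exact huniq _ h4 p hp (y p) h6 (hy p hp)
    refine ⟨fun s => ((m (q s) : W) : WithBot W), ?_, ?_⟩
    · rintro s ⟨p, hp, rfl⟩
      simp only [hy1 p hp]
      exact WithBot.coe_lt_coe.2 (hmy p hp)
    · intro v
      obtain ⟨w, hw⟩ := bdd_of_small hbig hsmall (small_Iic hsmall v)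
        (fun u : Set.Iic v => if h : ∃ p ∈ P, m p = u then y h.choose else v)
      refine ⟨w, ?_⟩
      rintro s ⟨p, hp, rfl⟩ h6
      simp only [hy1 p hp] at h6
      have h7 : m p ≤ v := WithBot.coe_le_coe.1 h6
      have h8 := hw ⟨m p, h7⟩
      have h9 : ∃ p' ∈ P, m p' = m p := ⟨p, hp, rfl⟩
      simp only [dif_pos h9] at h8
      have h10 : h9.choose = p := by
        apply huniq _ h9.choose_spec.1 p hp (m p) _ (hm p hp)
        have := hm _ h9.choose_spec.1
        rwa [h9.choose_spec.2] at this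
      rwa [h10] at h8
  · intro p hp
    refine ⟨y p, ⟨hy p hp, p, hp, rfl⟩, ?_⟩
    rintro x ⟨hx, p', hp', rfl⟩
    rw [huniq p hp p' hp' _ hx (hy p' hp')]
  · rintro s ⟨p, hp, rfl⟩
    exact ⟨p, hp, hy p hp⟩

end Basic

/-- a suitable well-ordered subset of any set of size continuum -/
theorem exists_good (I : Type) (hI : 𝔠 < #(Set I)) :
    ∃ (Z : Set I) (L : LinearOrder Z), @WellFoundedLT Z (@Preorder.toLT _ (@PartialOrder.toPreorder _ L.toPartialOrder)) ∧
      𝔠 < #(Set Z) ∧ ∀ w : Z, #(Set {x : Z | @LT.lt Z (@Preorder.toLT _ (@PartialOrder.toPreorder _ L.toPartialOrder)) x w}) ≤ 𝔠 := by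
  classical
  letI L : LinearOrder I := linearOrderOfSTO (WellOrderingRel (α := I))
  haveI hwf : WellFoundedLT I := ⟨(WellOrderingRel.isWellOrder (α := I)).wf⟩
  by_cases h : ∃ w : I, 𝔠 < #(Set (Set.Iio w))
  · have hne : {w : I | 𝔠 < #(Set (Set.Iio w))}.Nonempty := h
    let w := WellFounded.min (wellFounded_lt (α := I)) _ hne
    have hw : 𝔠 < #(Set (Set.Iio w)) := WellFounded.min_mem (wellFounded_lt (α := I)) _ hne
    refine ⟨Set.Iio w, inferInstance, inferInstance, hw, ?_⟩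
    intro v
    have h1 : ¬ 𝔠 < #(Set (Set.Iio (v : I))) := fun hcon =>
      WellFounded.not_lt_min (wellFounded_lt (α := I)) {w : I | 𝔠 < #(Set (Set.Iio w))} hcon v.2
    refine le_trans ?_ (not_lt.1 h1)
    rw [mk_set, mk_set]
    apply power_le_power_left two_ne_zero
    refine mk_le_of_injective (f := fun x : {x : Set.Iio w | x < v} => (⟨x.1.1, x.2⟩ : Set.Iio (v : I))) ?_
    intro x y hxy
    have : x.1.1 = y.1.1 := congrArg (fun z : Set.Iio (v : I) => (z : I)) hxy
    exact Subtype.ext (Subtype.ext this)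
  · push Not at h
    refine ⟨Set.univ, inferInstance, inferInstance, ?_, ?_⟩
    · rw [mk_set, mk_univ, ← mk_set]; exact hI
    · intro v
      refine le_trans ?_ (h v)
      rw [mk_set, mk_set]
      apply power_le_power_left two_ne_zero
      refine mk_le_of_injective (f := fun x : {x : (Set.univ : Set I) | x < v} => (⟨x.1.1, x.2⟩ : Set.Iio (v : I))) ?_
      intro x y hxy
      have : x.1.1 = y.1.1 := congrArg (fun z : Set.Iio (v : I) => (z : I)) hxy
      exact Subtype.ext (Subtype.ext this)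

end Pool.Agent.H653R2.Selectors
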